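import Pool.Agent.X256.Med.Poly

set_option autoImplicit false

namespace Pool.Agent.X256.Med

open Polynomial

theorem q1_irr : Irreducible q1 := by
  rw [q1_monic.irreducible_iff_roots_eq_zero_of_degree_le_three (by rw [q1_deg]) (by rw [q1_deg]; norm_num)]
  rw [Multiset.eq_zero_iff_forall_notMem]
  intro z hz
  have h1 := (mem_roots'.1 hz).2
  simp only [IsRoot, q1, eval_sub, eval_pow, eval_X, eval_C] at h1
  have h2 : z ^ 2 = 3 := by linarith
  have h3 : z ≤ 1 := by nlinarith
  have h4 : -1 ≤ z := by nlinarith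
  interval_cases z <;> omega

theorem q3_irr : Irreducible q3 := by
  rw [q3_monic.irreducible_iff_roots_eq_zero_of_degree_le_three (by rw [q3_deg]; norm_num) (by rw [q3_deg])]
  rw [Multiset.eq_zero_iff_forall_notMem]
  intro z hz
  have h1 := (mem_roots'.1 hz).2
  simp only [IsRoot, q3, eval_sub, eval_add, eval_mul, eval_pow, eval_X, eval_C] at h1
  have h2 : z * (z ^ 2 + z - 2) = 1 := by linarith
  have h3 : z ∣ 1 := ⟨_, h2.symm⟩
  have h4 : IsUnit z := isUnit_of_dvd_one h3
  rcases Int.isUnit_iff.1 h4 with h | h <;> subst h <;> norm_num at h1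

/-- A common real root of an irreducible monic `q` and `χ` forces `q ∣ χ`. -/
theorem dvd_of_common (q χ : ℤ[X]) (hq : q.Monic) (hi : Irreducible q) (x : ℝ)
    (h1 : (q.map toR).eval x = 0) (h2 : (χ.map toR).eval x = 0) : q ∣ χ := by
  have hiQ : Irreducible (q.map (algebraMap ℤ ℚ)) :=
    (hq.irreducible_iff_irreducible_map_fraction_map (K := ℚ)).1 hi
  have e : ∀ p : ℤ[X], aeval x (p.map (algebraMap ℤ ℚ)) = (p.map toR).eval x := by
    intro p
    rw [aeval_map_algebraMap, aeval_def, eval_map]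
    rfl
  have h3 : q.map (algebraMap ℤ ℚ) = minpoly ℚ x :=
    minpoly.eq_of_irreducible_of_monic hiQ (by rw [e, h1]) (hq.map _)
  have h4 : minpoly ℚ x ∣ χ.map (algebraMap ℤ ℚ) := minpoly.dvd _ _ (by rw [e, h2])
  rw [← h3] at h4
  exact (map_dvd_map _ (algebraMap ℤ ℚ).injective_int hq).1 h4

/-- sum of the test function minus the indicator over the roots -/
noncomputable def Phi (p : ℝ[X]) : ℝ := (p.roots.map fun x => phi x - ind x).sum

theorem Phi_mul (p q : ℝ[X]) (h : p * q ≠ 0) : Phi (p * q) = Phi p + Phi q := by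
  unfold Phi
  rw [roots_mul h, Multiset.map_add, Multiset.sum_add]

theorem q1_factor : q1.map toR = (X - C (√3)) * (X - C (-√3)) := by
  have s2 : √3 * √3 = 3 := Real.mul_self_sqrt (by norm_num)
  simp only [q1, Polynomial.map_sub, Polynomial.map_pow, map_X, map_C]
  have : (C (toR 3) : ℝ[X]) = C (√3) * C (√3) := by
    rw [← C_mul, s2]; simp
  rw [this, C_neg]
  ring

theorem q2_factor : q2.map toR = X - C (-2) := by
  have : toR 2 = (2 : ℝ) := by simp
  rw [C_neg, sub_neg_eq_add, ← this]
  simp only [q2, Polynomial.map_add, map_X, map_C]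

theorem exists_q3_roots : ∃ r1 r2 r3 : ℝ, (-(181 / 100) ≤ r1 ∧ r1 ≤ -(180 / 100)) ∧
    (-(45 / 100) ≤ r2 ∧ r2 ≤ -(44 / 100)) ∧ (124 / 100 ≤ r3 ∧ r3 ≤ 125 / 100) ∧
    (q3.map toR).eval r1 = 0 ∧ (q3.map toR).eval r2 = 0 ∧ (q3.map toR).eval r3 = 0 := by
  have hc : Continuous fun x : ℝ => x ^ 3 + x ^ 2 - 2 * x - 1 := by fun_prop
  have h1 : (0 : ℝ) ∈ (fun x : ℝ => x ^ 3 + x ^ 2 - 2 * x - 1) '' Set.Icc (-(181 / 100)) (-(180 / 100)) :=
    intermediate_value_Icc (by norm_num) hc.continuousOn ⟨by norm_num, by norm_num⟩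
  have h2 : (0 : ℝ) ∈ (fun x : ℝ => x ^ 3 + x ^ 2 - 2 * x - 1) '' Set.Icc (-(45 / 100)) (-(44 / 100)) :=
    intermediate_value_Icc' (by norm_num) hc.continuousOn ⟨by norm_num, by norm_num⟩
  have h3 : (0 : ℝ) ∈ (fun x : ℝ => x ^ 3 + x ^ 2 - 2 * x - 1) '' Set.Icc (124 / 100) (125 / 100) :=
    intermediate_value_Icc (by norm_num) hc.continuousOn ⟨by norm_num, by norm_num⟩
  obtain ⟨r1, a1, b1⟩ := h1
  obtain ⟨r2, a2, b2⟩ := h2
  obtain ⟨r3, a3, b3⟩ := h3
  refine ⟨r1, r2, r3, a1, a2, a3, ?_, ?_, ?_⟩ <;> rw [q3_eval] <;> assumption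

theorem Phi_q3 : 0 ≤ Phi (q3.map toR) := by
  obtain ⟨r1, r2, r3, ⟨a1, b1⟩, ⟨a2, b2⟩, ⟨a3, b3⟩, e1, e2, e3⟩ := exists_q3_roots
  have hne : q3.map toR ≠ 0 := (q3_monic.map toR).ne_zero
  have hle : ({r1, r2, r3} : Multiset ℝ) ≤ (q3.map toR).roots := by
    rw [Multiset.le_iff_subset]
    · intro x hx
      rw [mem_roots hne, IsRoot]
      simp only [Multiset.insert_eq_cons, Multiset.mem_cons, Multiset.mem_singleton] at hx
      rcases hx with rfl | rfl | rfl <;> assumption
    · simp only [Multiset.insert_eq_cons, Multiset.nodup_cons, Multiset.mem_cons,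
        Multiset.mem_singleton, Multiset.nodup_singleton, and_true, not_or]
      refine ⟨⟨?_, ?_⟩, ?_⟩ <;> apply ne_of_lt <;> linarith
  have hcard : (q3.map toR).roots.card ≤ ({r1, r2, r3} : Multiset ℝ).card := by
    refine (card_roots' _).trans ?_
    rw [q3_monic.natDegree_map, q3_deg]
    simp
  have heq := Multiset.eq_of_le_of_card_le hle hcard
  unfold Phi
  rw [← heq]
  simp only [Multiset.insert_eq_cons, Multiset.map_cons, Multiset.map_singleton, Multiset.sum_cons,
    Multiset.sum_singleton]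
  have i1 : ind r1 ≤ 1 := by unfold ind; split_ifs <;> norm_num
  have i2 : ind r2 = 0 := by
    unfold ind; rw [if_neg]; push Not; have := lt_sqrt3; linarith
  have i3 : ind r3 = 0 := by
    unfold ind; rw [if_neg]; push Not; have := lt_sqrt3; linarith
  have p1 : 88 / 100 ≤ phi r1 := by
    unfold phi P1 P2
    rw [le_min_iff]
    constructor
    · have := bern4 (225 / 1000 - 88 / 100) (-2745 / 10000) (918 / 10000) (95 / 10000) (-398 / 100000) (-(181 / 100)) (-(180 / 100)) r1 (by norm_num) a1 b1 (by norm_num) (by norm_num) (by norm_num) (by norm_num) (by norm_num)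
      linarith
    · have := bern4 (1531 / 10000 - 88 / 100) (-1901 / 10000) (991 / 10000) (-124 / 10000) 0 (-(181 / 100)) (-(180 / 100)) r1 (by norm_num) a1 b1 (by norm_num) (by norm_num) (by norm_num) (by norm_num) (by norm_num)
      linarith
  have p2 : 25 / 100 ≤ phi r2 := by
    unfold phi P1 P2
    rw [le_min_iff]
    constructor
    · have := bern4 (225 / 1000 - 25 / 100) (-2745 / 10000) (918 / 10000) (95 / 10000) (-398 / 100000) (-(45 / 100)) (-(44 / 100)) r2 (by norm_num) a2 b2 (by norm_num) (by norm_num) (by norm_num) (by norm_num) (by norm_num)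
      linarith
    · have := bern4 (1531 / 10000 - 25 / 100) (-1901 / 10000) (991 / 10000) (-124 / 10000) 0 (-(45 / 100)) (-(44 / 100)) r2 (by norm_num) a2 b2 (by norm_num) (by norm_num) (by norm_num) (by norm_num) (by norm_num)
      linarith
  have p3 : 0 ≤ phi r3 := by
    unfold phi P1 P2
    rw [le_min_iff]
    constructor
    · have := bern4 (225 / 1000) (-2745 / 10000) (918 / 10000) (95 / 10000) (-398 / 100000) (124 / 100) (125 / 100) r3 (by norm_num) a3 b3 (by norm_num) (by norm_num) (by norm_num) (by norm_num) (by norm_num)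
      linarith
    · have := bern4 (1531 / 10000) (-1901 / 10000) (991 / 10000) (-124 / 10000) 0 (124 / 100) (125 / 100) r3 (by norm_num) a3 b3 (by norm_num) (by norm_num) (by norm_num) (by norm_num) (by norm_num)
      linarith
  linarith

theorem Phi_q1 : 0 ≤ Phi (q1.map toR) := by
  rw [q1_factor, Phi_mul _ _ (mul_ne_zero (X_sub_C_ne_zero _) (X_sub_C_ne_zero _))]
  unfold Phi
  rw [roots_X_sub_C, roots_X_sub_C]
  simp only [Multiset.map_singleton, Multiset.sum_singleton]
  have := phi_sqrt
  linarith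

theorem Phi_q2 : 0 ≤ Phi (q2.map toR) := by
  rw [q2_factor]
  unfold Phi
  rw [roots_X_sub_C]
  simp only [Multiset.map_singleton, Multiset.sum_singleton]
  have := phi_neg_two
  linarith

/-- The sum of the test function over the roots of a monic integer polynomial all of whose roots
are real and in `[-4, 4]` is at least the number of roots below `-√3`. -/
theorem Phi_nonneg (n : ℕ) : ∀ χ : ℤ[X], χ.Monic → χ.natDegree = n → (χ.map toR).Splits →
    (∀ x ∈ (χ.map toR).roots, -4 ≤ x ∧ x ≤ 4) → 0 ≤ Phi (χ.map toR) := by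
  induction n using Nat.strong_induction_on with
  | _ n ih =>
    intro χ hm hn hs hb
    have step : ∀ q : ℤ[X], q.Monic → 0 < q.natDegree → 0 ≤ Phi (q.map toR) → q ∣ χ →
        0 ≤ Phi (χ.map toR) := by
      intro q hq hd hp hqd
      obtain ⟨r, hr⟩ := hqd
      have hrm : r.Monic := hq.of_mul_monic_left (hr ▸ hm)
      have hne : q.map toR * r.map toR ≠ 0 :=
        mul_ne_zero (hq.map toR).ne_zero (hrm.map toR).ne_zero
      have hmap : χ.map toR = q.map toR * r.map toR := by rw [hr, Polynomial.map_mul]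
      have hrs : (r.map toR).Splits := by
        rw [hmap] at hs
        exact ((splits_mul (hq.map toR).ne_zero (hrm.map toR).ne_zero).1 hs).2
      have hdeg : χ.natDegree = q.natDegree + r.natDegree := by
        rw [hr, hq.natDegree_mul hrm]
      have h1 := ih r.natDegree (by omega) r hrm rfl hrs (by
        intro x hx
        apply hb
        rw [hmap, roots_mul hne]
        exact Multiset.mem_add.2 (Or.inr hx))
      rw [hmap, Phi_mul _ _ hne]
      linarith
    have hroot : ∀ x ∈ (χ.map toR).roots, (χ.map toR).eval x = 0 := by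
      intro x hx
      exact (mem_roots'.1 hx).2
    by_cases c1 : ∃ x ∈ (χ.map toR).roots, (q1.map toR).eval x = 0
    · obtain ⟨x, hx, hx'⟩ := c1
      exact step q1 q1_monic (by rw [q1_deg]; norm_num) Phi_q1
        (dvd_of_common q1 χ q1_monic q1_irr x hx' (hroot x hx))
    by_cases c2 : ∃ x ∈ (χ.map toR).roots, (q2.map toR).eval x = 0
    · obtain ⟨x, hx, hx'⟩ := c2
      refine step q2 q2_monic (by rw [q2_deg]; norm_num) Phi_q2 ?_
      refine dvd_of_common q2 χ q2_monic ?_ x hx' (hroot x hx)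
      have : q2 = X - C (-2) := by simp [q2]
      rw [this]
      exact irreducible_X_sub_C _
    by_cases c3 : ∃ x ∈ (χ.map toR).roots, (q3.map toR).eval x = 0
    · obtain ⟨x, hx, hx'⟩ := c3
      exact step q3 q3_monic (by rw [q3_deg]; norm_num) Phi_q3
        (dvd_of_common q3 χ q3_monic q3_irr x hx' (hroot x hx))
    push Not at c1 c2 c3
    have l1 := one_le_prod χ q1 hm hs c1
    have l2 := one_le_prod χ q2 hm hs c2
    have l3 := one_le_prod χ q3 hm hs c3
    have h1 : ((χ.map toR).roots.map fun x => Lg x).sum ≤ Phi (χ.map toR) := by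
      unfold Phi
      apply Multiset.sum_map_le_sum_map
      intro x hx
      have := key x (hb x hx).1 (hb x hx).2 (by rw [← q1_eval]; exact c1 x hx)
        (by rw [← q2_eval]; exact c2 x hx) (by rw [← q3_eval]; exact c3 x hx)
      linarith
    refine le_trans ?_ h1
    have h2 : (fun x => Lg x) = fun x => (46 / 1000 * Real.log |(q1.map toR).eval x|
        + 13 / 1000 * Real.log |(q2.map toR).eval x|) + 10 / 1000 * Real.log |(q3.map toR).eval x| := by
      funext x
      rw [q1_eval, q2_eval, q3_eval, Lg]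
    rw [h2, Multiset.sum_map_add, Multiset.sum_map_add, Multiset.sum_map_mul_left,
      Multiset.sum_map_mul_left, Multiset.sum_map_mul_left]
    positivity

end Pool.Agent.X256.Med
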