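import Mathlib

/-!
# The one-variable inequality behind the bound for the median eigenvalue

For `x` in `[-4, 4]`, not a root of `x^2 - 3`, `x + 2`, `x^3 + x^2 - 2x - 1`, both polynomials
`P1`, `P2` are at least `ind + Lg x`, where `ind = 1` for `x <= -1.73` and `0` otherwise.
-/

set_option autoImplicit false

namespace Pool.Agent.X256.Med

open Real

/-- the weighted sum of logarithms -/
noncomputable def Lg (x : ℝ) : ℝ :=
  46 / 1000 * log |x ^ 2 - 3| + 13 / 1000 * log |x + 2| + 10 / 1000 * log |x ^ 3 + x ^ 2 - 2 * x - 1|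

/-- the polynomial used at vertices in at most one triangle -/
noncomputable def P1 (x : ℝ) : ℝ :=
  225 / 1000 - 2745 / 10000 * x + 918 / 10000 * x ^ 2 + 95 / 10000 * x ^ 3 - 398 / 100000 * x ^ 4

/-- the polynomial used at vertices in at least two triangles -/
noncomputable def P2 (x : ℝ) : ℝ :=
  1531 / 10000 - 1901 / 10000 * x + 991 / 10000 * x ^ 2 - 124 / 10000 * x ^ 3

theorem bern4 (c0 c1 c2 c3 c4 l r x : ℝ) (hlr : l < r) (h1 : l ≤ x) (h2 : x ≤ r)
    (b0 : 0 ≤ c0 + c1 * l + c2 * l ^ 2 + c3 * l ^ 3 + c4 * l ^ 4)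
    (b1 : 0 ≤ c0 + c1 * ((3 * l + r) / 4) + c2 * ((l ^ 2 + l * r) / 2) + c3 * ((l ^ 3 + 3 * l ^ 2 * r) / 4) + c4 * (l ^ 3 * r))
    (b2 : 0 ≤ c0 + c1 * ((l + r) / 2) + c2 * ((l ^ 2 + 4 * l * r + r ^ 2) / 6) + c3 * ((l ^ 2 * r + l * r ^ 2) / 2) + c4 * (l ^ 2 * r ^ 2))
    (b3 : 0 ≤ c0 + c1 * ((l + 3 * r) / 4) + c2 * ((r ^ 2 + l * r) / 2) + c3 * ((r ^ 3 + 3 * r ^ 2 * l) / 4) + c4 * (r ^ 3 * l))
    (b4 : 0 ≤ c0 + c1 * r + c2 * r ^ 2 + c3 * r ^ 3 + c4 * r ^ 4) :
    0 ≤ c0 + c1 * x + c2 * x ^ 2 + c3 * x ^ 3 + c4 * x ^ 4 := by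
  have hx1 : 0 ≤ x - l := by linarith
  have hx2 : 0 ≤ r - x := by linarith
  have key : (c0 + c1 * x + c2 * x ^ 2 + c3 * x ^ 3 + c4 * x ^ 4) * (r - l) ^ 4 =
      (c0 + c1 * l + c2 * l ^ 2 + c3 * l ^ 3 + c4 * l ^ 4) * (r - x) ^ 4
      + (c0 + c1 * ((3 * l + r) / 4) + c2 * ((l ^ 2 + l * r) / 2) + c3 * ((l ^ 3 + 3 * l ^ 2 * r) / 4) + c4 * (l ^ 3 * r)) * (4 * ((x - l) * (r - x) ^ 3))
      + (c0 + c1 * ((l + r) / 2) + c2 * ((l ^ 2 + 4 * l * r + r ^ 2) / 6) + c3 * ((l ^ 2 * r + l * r ^ 2) / 2) + c4 * (l ^ 2 * r ^ 2)) * (6 * ((x - l) ^ 2 * (r - x) ^ 2))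
      + (c0 + c1 * ((l + 3 * r) / 4) + c2 * ((r ^ 2 + l * r) / 2) + c3 * ((r ^ 3 + 3 * r ^ 2 * l) / 4) + c4 * (r ^ 3 * l)) * (4 * ((x - l) ^ 3 * (r - x)))
      + (c0 + c1 * r + c2 * r ^ 2 + c3 * r ^ 3 + c4 * r ^ 4) * (x - l) ^ 4 := by ring
  have hpos : 0 < (r - l) ^ 4 := by positivity
  have : 0 ≤ (c0 + c1 * x + c2 * x ^ 2 + c3 * x ^ 3 + c4 * x ^ 4) * (r - l) ^ 4 := by
    rw [key]
    have m0 := mul_nonneg b0 (by positivity : 0 ≤ (r - x) ^ 4)
    have m1 := mul_nonneg b1 (by positivity : 0 ≤ 4 * ((x - l) * (r - x) ^ 3))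
    have m2 := mul_nonneg b2 (by positivity : 0 ≤ 6 * ((x - l) ^ 2 * (r - x) ^ 2))
    have m3 := mul_nonneg b3 (by positivity : 0 ≤ 4 * ((x - l) ^ 3 * (r - x)))
    have m4 := mul_nonneg b4 (by positivity : 0 ≤ (x - l) ^ 4)
    linarith
  by_contra hneg
  push Not at hneg
  have := mul_neg_of_neg_of_pos hneg hpos
  linarith

theorem logb {y κ E : ℝ} (hy : 0 < y) (hE : exp (-κ) ≤ E) : log y ≤ κ - 1 + E * y := by
  have h1 : log (y * exp (-κ)) ≤ y * exp (-κ) - 1 := log_le_sub_one_of_pos (by positivity)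
  rw [log_mul hy.ne' (exp_pos _).ne', log_exp] at h1
  have h2 : y * exp (-κ) ≤ y * E := mul_le_mul_of_nonneg_left hE hy.le
  linarith

theorem exp_up : exp (1 / 8) ≤ 1133148453067 / 1000000000000 := by
  have h := Real.exp_bound' (x := 1 / 8) (by norm_num) (by norm_num) (n := 10) (by norm_num)
  refine h.trans ?_
  norm_num [Finset.sum_range_succ, Nat.factorial]

theorem exp_um : exp (-(1 / 8)) ≤ 882496902585 / 1000000000000 := by
  have h := Real.sum_le_exp_of_nonneg (x := 1 / 8) (by norm_num) 10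
  rw [Real.exp_neg]
  have h2 : (1 : ℝ) / (882496902585 / 1000000000000) ≤ exp (1 / 8) := by
    refine le_trans ?_ h
    norm_num [Finset.sum_range_succ, Nat.factorial]
  rw [inv_le_comm₀ (exp_pos _) (by norm_num)]
  simpa using h2

theorem exp_neg_nat (k : ℕ) : exp (-(k / 8 : ℝ)) ≤ (882496902585 / 1000000000000) ^ k := by
  have : exp (-(k / 8 : ℝ)) = exp (-(1 / 8)) ^ k := by
    rw [← Real.exp_nat_mul]; congr 1; ring
  rw [this]
  exact pow_le_pow_left₀ (exp_pos _).le exp_um k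

theorem exp_pos_nat (k : ℕ) : exp (-(-(k : ℝ) / 8)) ≤ (1133148453067 / 1000000000000) ^ k := by
  have : exp (-(-(k : ℝ) / 8)) = exp (1 / 8) ^ k := by
    rw [← Real.exp_nat_mul]; congr 1; ring
  rw [this]
  exact pow_le_pow_left₀ (exp_pos _).le exp_up k

theorem E_m27 : exp (-((-27 : ℝ) / 8)) ≤ (292243/10000) := by
  have h := exp_pos_nat 27
  refine le_trans (le_of_eq ?_) (h.trans ?_)
  · norm_num
  · norm_num

theorem E_m23 : exp (-((-23 : ℝ) / 8)) ≤ (35451/2000) := by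
  have h := exp_pos_nat 23
  refine le_trans (le_of_eq ?_) (h.trans ?_)
  · norm_num
  · norm_num

theorem E_m20 : exp (-((-20 : ℝ) / 8)) ≤ (4873/400) := by
  have h := exp_pos_nat 20
  refine le_trans (le_of_eq ?_) (h.trans ?_)
  · norm_num
  · norm_num

theorem E_m19 : exp (-((-19 : ℝ) / 8)) ≤ (107511/10000) := by
  have h := exp_pos_nat 19
  refine le_trans (le_of_eq ?_) (h.trans ?_)
  · norm_num
  · norm_num

theorem E_m18 : exp (-((-18 : ℝ) / 8)) ≤ (474387/50000) := by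
  have h := exp_pos_nat 18
  refine le_trans (le_of_eq ?_) (h.trans ?_)
  · norm_num
  · norm_num

theorem E_m17 : exp (-((-17 : ℝ) / 8)) ≤ (83729/10000) := by
  have h := exp_pos_nat 17
  refine le_trans (le_of_eq ?_) (h.trans ?_)
  · norm_num
  · norm_num

theorem E_m15 : exp (-((-15 : ℝ) / 8)) ≤ (326041/50000) := by
  have h := exp_pos_nat 15
  refine le_trans (le_of_eq ?_) (h.trans ?_)
  · norm_num
  · norm_num

theorem E_m14 : exp (-((-14 : ℝ) / 8)) ≤ (575461/100000) := by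
  have h := exp_pos_nat 14
  refine le_trans (le_of_eq ?_) (h.trans ?_)
  · norm_num
  · norm_num

theorem E_m13 : exp (-((-13 : ℝ) / 8)) ≤ (253921/50000) := by
  have h := exp_pos_nat 13
  refine le_trans (le_of_eq ?_) (h.trans ?_)
  · norm_num
  · norm_num

theorem E_m12 : exp (-((-12 : ℝ) / 8)) ≤ (448169/100000) := by
  have h := exp_pos_nat 12
  refine le_trans (le_of_eq ?_) (h.trans ?_)
  · norm_num
  · norm_num

theorem E_m11 : exp (-((-11 : ℝ) / 8)) ≤ (98877/25000) := by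
  have h := exp_pos_nat 11
  refine le_trans (le_of_eq ?_) (h.trans ?_)
  · norm_num
  · norm_num

theorem E_m9 : exp (-((-9 : ℝ) / 8)) ≤ (154011/50000) := by
  have h := exp_pos_nat 9
  refine le_trans (le_of_eq ?_) (h.trans ?_)
  · norm_num
  · norm_num

theorem E_m7 : exp (-((-7 : ℝ) / 8)) ≤ (14993/6250) := by
  have h := exp_pos_nat 7
  refine le_trans (le_of_eq ?_) (h.trans ?_)
  · norm_num
  · norm_num

theorem E_m6 : exp (-((-6 : ℝ) / 8)) ≤ (211701/100000) := by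
  have h := exp_pos_nat 6
  refine le_trans (le_of_eq ?_) (h.trans ?_)
  · norm_num
  · norm_num

theorem E_m5 : exp (-((-5 : ℝ) / 8)) ≤ (7473/4000) := by
  have h := exp_pos_nat 5
  refine le_trans (le_of_eq ?_) (h.trans ?_)
  · norm_num
  · norm_num

theorem E_m4 : exp (-((-4 : ℝ) / 8)) ≤ (164873/100000) := by
  have h := exp_pos_nat 4
  refine le_trans (le_of_eq ?_) (h.trans ?_)
  · norm_num
  · norm_num

theorem E_m2 : exp (-((-2 : ℝ) / 8)) ≤ (128403/100000) := by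
  have h := exp_pos_nat 2
  refine le_trans (le_of_eq ?_) (h.trans ?_)
  · norm_num
  · norm_num

theorem E_m1 : exp (-((-1 : ℝ) / 8)) ≤ (22663/20000) := by
  have h := exp_pos_nat 1
  refine le_trans (le_of_eq ?_) (h.trans ?_)
  · norm_num
  · norm_num

theorem E_0 : exp (-((0 : ℝ) / 8)) ≤ (100001/100000) := by
  have h := exp_neg_nat 0
  refine le_trans (le_of_eq ?_) (h.trans ?_)
  · norm_num
  · norm_num

theorem E_1 : exp (-((1 : ℝ) / 8)) ≤ (882497/1000000) := by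
  have h := exp_neg_nat 1
  refine le_trans (le_of_eq ?_) (h.trans ?_)
  · norm_num
  · norm_num

theorem E_2 : exp (-((2 : ℝ) / 8)) ≤ (778801/1000000) := by
  have h := exp_neg_nat 2
  refine le_trans (le_of_eq ?_) (h.trans ?_)
  · norm_num
  · norm_num

theorem E_3 : exp (-((3 : ℝ) / 8)) ≤ (68729/100000) := by
  have h := exp_neg_nat 3
  refine le_trans (le_of_eq ?_) (h.trans ?_)
  · norm_num
  · norm_num

theorem E_4 : exp (-((4 : ℝ) / 8)) ≤ (606531/1000000) := by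
  have h := exp_neg_nat 4
  refine le_trans (le_of_eq ?_) (h.trans ?_)
  · norm_num
  · norm_num

theorem E_5 : exp (-((5 : ℝ) / 8)) ≤ (267631/500000) := by
  have h := exp_neg_nat 5
  refine le_trans (le_of_eq ?_) (h.trans ?_)
  · norm_num
  · norm_num

theorem E_6 : exp (-((6 : ℝ) / 8)) ≤ (472367/1000000) := by
  have h := exp_neg_nat 6
  refine le_trans (le_of_eq ?_) (h.trans ?_)
  · norm_num
  · norm_num

theorem E_7 : exp (-((7 : ℝ) / 8)) ≤ (416863/1000000) := by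
  have h := exp_neg_nat 7
  refine le_trans (le_of_eq ?_) (h.trans ?_)
  · norm_num
  · norm_num

theorem E_8 : exp (-((8 : ℝ) / 8)) ≤ (9197/25000) := by
  have h := exp_neg_nat 8
  refine le_trans (le_of_eq ?_) (h.trans ?_)
  · norm_num
  · norm_num

theorem E_9 : exp (-((9 : ℝ) / 8)) ≤ (324653/1000000) := by
  have h := exp_neg_nat 9
  refine le_trans (le_of_eq ?_) (h.trans ?_)
  · norm_num
  · norm_num

theorem E_10 : exp (-((10 : ℝ) / 8)) ≤ (57301/200000) := by
  have h := exp_neg_nat 10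
  refine le_trans (le_of_eq ?_) (h.trans ?_)
  · norm_num
  · norm_num

theorem E_11 : exp (-((11 : ℝ) / 8)) ≤ (6321/25000) := by
  have h := exp_neg_nat 11
  refine le_trans (le_of_eq ?_) (h.trans ?_)
  · norm_num
  · norm_num

theorem E_12 : exp (-((12 : ℝ) / 8)) ≤ (223131/1000000) := by
  have h := exp_neg_nat 12
  refine le_trans (le_of_eq ?_) (h.trans ?_)
  · norm_num
  · norm_num

theorem E_13 : exp (-((13 : ℝ) / 8)) ≤ (12307/62500) := by
  have h := exp_neg_nat 13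
  refine le_trans (le_of_eq ?_) (h.trans ?_)
  · norm_num
  · norm_num

theorem E_14 : exp (-((14 : ℝ) / 8)) ≤ (86887/500000) := by
  have h := exp_neg_nat 14
  refine le_trans (le_of_eq ?_) (h.trans ?_)
  · norm_num
  · norm_num

theorem E_15 : exp (-((15 : ℝ) / 8)) ≤ (30671/200000) := by
  have h := exp_neg_nat 15
  refine le_trans (le_of_eq ?_) (h.trans ?_)
  · norm_num
  · norm_num

theorem E_16 : exp (-((16 : ℝ) / 8)) ≤ (16917/125000) := by
  have h := exp_neg_nat 16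
  refine le_trans (le_of_eq ?_) (h.trans ?_)
  · norm_num
  · norm_num

theorem E_17 : exp (-((17 : ℝ) / 8)) ≤ (119433/1000000) := by
  have h := exp_neg_nat 17
  refine le_trans (le_of_eq ?_) (h.trans ?_)
  · norm_num
  · norm_num

theorem E_20 : exp (-((20 : ℝ) / 8)) ≤ (16417/200000) := by
  have h := exp_neg_nat 20
  refine le_trans (le_of_eq ?_) (h.trans ?_)
  · norm_num
  · norm_num

theorem E_22 : exp (-((22 : ℝ) / 8)) ≤ (639279/10000000) := by
  have h := exp_neg_nat 22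
  refine le_trans (le_of_eq ?_) (h.trans ?_)
  · norm_num
  · norm_num

theorem E_23 : exp (-((23 : ℝ) / 8)) ≤ (282081/5000000) := by
  have h := exp_neg_nat 23
  refine le_trans (le_of_eq ?_) (h.trans ?_)
  · norm_num
  · norm_num

theorem E_24 : exp (-((24 : ℝ) / 8)) ≤ (497871/10000000) := by
  have h := exp_neg_nat 24
  refine le_trans (le_of_eq ?_) (h.trans ?_)
  · norm_num
  · norm_num

theorem E_28 : exp (-((28 : ℝ) / 8)) ≤ (150987/5000000) := by
  have h := exp_neg_nat 28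
  refine le_trans (le_of_eq ?_) (h.trans ?_)
  · norm_num
  · norm_num

theorem E_32 : exp (-((32 : ℝ) / 8)) ≤ (183157/10000000) := by
  have h := exp_neg_nat 32
  refine le_trans (le_of_eq ?_) (h.trans ?_)
  · norm_num
  · norm_num

theorem cell0 (x : ℝ) (h1 : (-4) ≤ x) (h2 : x ≤ (-7/2)) (n1 : x ^ 2 - 3 ≠ 0) (n2 : x + 2 ≠ 0)
    (n3 : x ^ 3 + x ^ 2 - 2 * x - 1 ≠ 0) : 1 + Lg x ≤ P1 x ∧ 1 + Lg x ≤ P2 x := by
  have s1 := bern4 (-3) 0 1 0 0 (-4) (-7/2) x (by norm_num) h1 h2 (by norm_num) (by norm_num) (by norm_num) (by norm_num) (by norm_num)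
  have a1 : |x ^ 2 - 3| ≤ x ^ 2 - 3 := abs_le.2 ⟨by linarith, le_rfl⟩
  have e1 := logb (abs_pos.2 n1) E_20
  have f1 := mul_le_mul_of_nonneg_left a1 (by norm_num : (0 : ℝ) ≤ (16417/200000))
  have s2 := bern4 (-2) (-1) 0 0 0 (-4) (-7/2) x (by norm_num) h1 h2 (by norm_num) (by norm_num) (by norm_num) (by norm_num) (by norm_num)
  have a2 : |x + 2| ≤ -(x + 2) := abs_le.2 ⟨by linarith, by linarith⟩
  have e2 := logb (abs_pos.2 n2) E_4
  have f2 := mul_le_mul_of_nonneg_left a2 (by norm_num : (0 : ℝ) ≤ (606531/1000000))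
  have s3 := bern4 1 2 (-1) (-1) 0 (-4) (-7/2) x (by norm_num) h1 h2 (by norm_num) (by norm_num) (by norm_num) (by norm_num) (by norm_num)
  have a3 : |x ^ 3 + x ^ 2 - 2 * x - 1| ≤ -(x ^ 3 + x ^ 2 - 2 * x - 1) := abs_le.2 ⟨by linarith, by linarith⟩
  have e3 := logb (abs_pos.2 n3) E_28
  have f3 := mul_le_mul_of_nonneg_left a3 (by norm_num : (0 : ℝ) ≤ (150987/5000000))
  have g1 := bern4 (-417852219/500000000) (-53443809/200000000) (5520379/62500000) (4900987/500000000) (-199/50000) (-4) (-7/2) x (by norm_num) h1 h2 (by norm_num) (by norm_num) (by norm_num) (by norm_num) (by norm_num)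
  have g2 := bern4 (-453802219/500000000) (-36563809/200000000) (5976629/62500000) (-6049013/500000000) 0 (-4) (-7/2) x (by norm_num) h1 h2 (by norm_num) (by norm_num) (by norm_num) (by norm_num) (by norm_num)
  unfold Lg P1 P2
  constructor <;> linarith

theorem cell1 (x : ℝ) (h1 : (-7/2) ≤ x) (h2 : x ≤ (-3)) (n1 : x ^ 2 - 3 ≠ 0) (n2 : x + 2 ≠ 0)
    (n3 : x ^ 3 + x ^ 2 - 2 * x - 1 ≠ 0) : 1 + Lg x ≤ P1 x ∧ 1 + Lg x ≤ P2 x := by
  have s1 := bern4 (-3) 0 1 0 0 (-7/2) (-3) x (by norm_num) h1 h2 (by norm_num) (by norm_num) (by norm_num) (by norm_num) (by norm_num)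
  have a1 : |x ^ 2 - 3| ≤ x ^ 2 - 3 := abs_le.2 ⟨by linarith, le_rfl⟩
  have e1 := logb (abs_pos.2 n1) E_16
  have f1 := mul_le_mul_of_nonneg_left a1 (by norm_num : (0 : ℝ) ≤ (16917/125000))
  have s2 := bern4 (-2) (-1) 0 0 0 (-7/2) (-3) x (by norm_num) h1 h2 (by norm_num) (by norm_num) (by norm_num) (by norm_num) (by norm_num)
  have a2 : |x + 2| ≤ -(x + 2) := abs_le.2 ⟨by linarith, by linarith⟩
  have e2 := logb (abs_pos.2 n2) E_2
  have f2 := mul_le_mul_of_nonneg_left a2 (by norm_num : (0 : ℝ) ≤ (778801/1000000))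
  have s3 := bern4 1 2 (-1) (-1) 0 (-7/2) (-3) x (by norm_num) h1 h2 (by norm_num) (by norm_num) (by norm_num) (by norm_num) (by norm_num)
  have a3 : |x ^ 3 + x ^ 2 - 2 * x - 1| ≤ -(x ^ 3 + x ^ 2 - 2 * x - 1) := abs_le.2 ⟨by linarith, by linarith⟩
  have e3 := logb (abs_pos.2 n3) E_23
  have f3 := mul_le_mul_of_nonneg_left a3 (by norm_num : (0 : ℝ) ≤ (282081/5000000))
  have g1 := bern4 (-98954871/125000000) (-265503911/1000000000) (43069353/500000000) (5032081/500000000) (-199/50000) (-7/2) (-3) x (by norm_num) h1 h2 (by norm_num) (by norm_num) (by norm_num) (by norm_num) (by norm_num)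
  have g2 := bern4 (-107942371/125000000) (-181103911/1000000000) (46719353/500000000) (-5917919/500000000) 0 (-7/2) (-3) x (by norm_num) h1 h2 (by norm_num) (by norm_num) (by norm_num) (by norm_num) (by norm_num)
  unfold Lg P1 P2
  constructor <;> linarith

theorem cell2 (x : ℝ) (h1 : (-3) ≤ x) (h2 : x ≤ (-2)) (n1 : x ^ 2 - 3 ≠ 0) (n2 : x + 2 ≠ 0)
    (n3 : x ^ 3 + x ^ 2 - 2 * x - 1 ≠ 0) : 1 + Lg x ≤ P1 x ∧ 1 + Lg x ≤ P2 x := by
  have s1 := bern4 (-3) 0 1 0 0 (-3) (-2) x (by norm_num) h1 h2 (by norm_num) (by norm_num) (by norm_num) (by norm_num) (by norm_num)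
  have a1 : |x ^ 2 - 3| ≤ x ^ 2 - 3 := abs_le.2 ⟨by linarith, le_rfl⟩
  have e1 := logb (abs_pos.2 n1) E_8
  have f1 := mul_le_mul_of_nonneg_left a1 (by norm_num : (0 : ℝ) ≤ (9197/25000))
  have s2 := bern4 (-2) (-1) 0 0 0 (-3) (-2) x (by norm_num) h1 h2 (by norm_num) (by norm_num) (by norm_num) (by norm_num) (by norm_num)
  have a2 : |x + 2| ≤ -(x + 2) := abs_le.2 ⟨by linarith, by linarith⟩
  have e2 := logb (abs_pos.2 n2) E_m6
  have f2 := mul_le_mul_of_nonneg_left a2 (by norm_num : (0 : ℝ) ≤ (211701/100000))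
  have s3 := bern4 1 2 (-1) (-1) 0 (-3) (-2) x (by norm_num) h1 h2 (by norm_num) (by norm_num) (by norm_num) (by norm_num) (by norm_num)
  have a3 : |x ^ 3 + x ^ 2 - 2 * x - 1| ≤ -(x ^ 3 + x ^ 2 - 2 * x - 1) := abs_le.2 ⟨by linarith, by linarith⟩
  have e3 := logb (abs_pos.2 n3) E_12
  have f3 := mul_le_mul_of_nonneg_left a3 (by norm_num : (0 : ℝ) ≤ (223131/1000000))
  have g1 := bern4 (-65367161/100000000) (-25144149/100000000) (7710883/100000000) (1173131/100000000) (-199/50000) (-3) (-2) x (by norm_num) h1 h2 (by norm_num) (by norm_num) (by norm_num) (by norm_num) (by norm_num)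
  have g2 := bern4 (-72557161/100000000) (-16704149/100000000) (8440883/100000000) (-1016869/100000000) 0 (-3) (-2) x (by norm_num) h1 h2 (by norm_num) (by norm_num) (by norm_num) (by norm_num) (by norm_num)
  unfold Lg P1 P2
  constructor <;> linarith

theorem cell3 (x : ℝ) (h1 : (-2) ≤ x) (h2 : x ≤ (-483/250)) (n1 : x ^ 2 - 3 ≠ 0) (n2 : x + 2 ≠ 0)
    (n3 : x ^ 3 + x ^ 2 - 2 * x - 1 ≠ 0) : 1 + Lg x ≤ P1 x ∧ 1 + Lg x ≤ P2 x := by
  have s1 := bern4 (-3) 0 1 0 0 (-2) (-483/250) x (by norm_num) h1 h2 (by norm_num) (by norm_num) (by norm_num) (by norm_num) (by norm_num)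
  have a1 : |x ^ 2 - 3| ≤ x ^ 2 - 3 := abs_le.2 ⟨by linarith, le_rfl⟩
  have e1 := logb (abs_pos.2 n1) E_m1
  have f1 := mul_le_mul_of_nonneg_left a1 (by norm_num : (0 : ℝ) ≤ (22663/20000))
  have s2 := bern4 2 1 0 0 0 (-2) (-483/250) x (by norm_num) h1 h2 (by norm_num) (by norm_num) (by norm_num) (by norm_num) (by norm_num)
  have a2 : |x + 2| ≤ x + 2 := abs_le.2 ⟨by linarith, le_rfl⟩
  have e2 := logb (abs_pos.2 n2) E_m27
  have f2 := mul_le_mul_of_nonneg_left a2 (by norm_num : (0 : ℝ) ≤ (292243/10000))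
  have s3 := bern4 1 2 (-1) (-1) 0 (-2) (-483/250) x (by norm_num) h1 h2 (by norm_num) (by norm_num) (by norm_num) (by norm_num) (by norm_num)
  have a3 : |x ^ 3 + x ^ 2 - 2 * x - 1| ≤ -(x ^ 3 + x ^ 2 - 2 * x - 1) := abs_le.2 ⟨by linarith, by linarith⟩
  have e3 := logb (abs_pos.2 n3) E_m2
  have f3 := mul_le_mul_of_nonneg_left a3 (by norm_num : (0 : ℝ) ≤ (128403/100000))
  have g1 := bern4 (-3175431/2500000) (-1360193/2000000) (262577/5000000) (223403/10000000) (-199/50000) (-2) (-483/250) x (by norm_num) h1 h2 (by norm_num) (by norm_num) (by norm_num) (by norm_num) (by norm_num)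
  have g2 := bern4 (-3355181/2500000) (-1191393/2000000) (299077/5000000) (4403/10000000) 0 (-2) (-483/250) x (by norm_num) h1 h2 (by norm_num) (by norm_num) (by norm_num) (by norm_num) (by norm_num)
  unfold Lg P1 P2
  constructor <;> linarith

theorem cell4 (x : ℝ) (h1 : (-483/250) ≤ x) (h2 : x ≤ (-373/200)) (n1 : x ^ 2 - 3 ≠ 0) (n2 : x + 2 ≠ 0)
    (n3 : x ^ 3 + x ^ 2 - 2 * x - 1 ≠ 0) : 1 + Lg x ≤ P1 x ∧ 1 + Lg x ≤ P2 x := by
  have s1 := bern4 (-3) 0 1 0 0 (-483/250) (-373/200) x (by norm_num) h1 h2 (by norm_num) (by norm_num) (by norm_num) (by norm_num) (by norm_num)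
  have a1 : |x ^ 2 - 3| ≤ x ^ 2 - 3 := abs_le.2 ⟨by linarith, le_rfl⟩
  have e1 := logb (abs_pos.2 n1) E_m4
  have f1 := mul_le_mul_of_nonneg_left a1 (by norm_num : (0 : ℝ) ≤ (164873/100000))
  have s2 := bern4 2 1 0 0 0 (-483/250) (-373/200) x (by norm_num) h1 h2 (by norm_num) (by norm_num) (by norm_num) (by norm_num) (by norm_num)
  have a2 : |x + 2| ≤ x + 2 := abs_le.2 ⟨by linarith, le_rfl⟩
  have e2 := logb (abs_pos.2 n2) E_m18
  have f2 := mul_le_mul_of_nonneg_left a2 (by norm_num : (0 : ℝ) ≤ (474387/50000))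
  have s3 := bern4 1 2 (-1) (-1) 0 (-483/250) (-373/200) x (by norm_num) h1 h2 (by norm_num) (by norm_num) (by norm_num) (by norm_num) (by norm_num)
  have a3 : |x ^ 3 + x ^ 2 - 2 * x - 1| ≤ -(x ^ 3 + x ^ 2 - 2 * x - 1) := abs_le.2 ⟨by linarith, by linarith⟩
  have e3 := logb (abs_pos.2 n3) E_m7
  have f3 := mul_le_mul_of_nonneg_left a3 (by norm_num : (0 : ℝ) ≤ (14993/6250))
  have g1 := bern4 (-6881453/10000000) (-22290911/50000000) (1997361/50000000) (41861/1250000) (-199/50000) (-483/250) (-373/200) x (by norm_num) h1 h2 (by norm_num) (by norm_num) (by norm_num) (by norm_num) (by norm_num)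
  have g2 := bern4 (-7600453/10000000) (-18070911/50000000) (2362361/50000000) (7243/625000) 0 (-483/250) (-373/200) x (by norm_num) h1 h2 (by norm_num) (by norm_num) (by norm_num) (by norm_num) (by norm_num)
  unfold Lg P1 P2
  constructor <;> linarith

theorem cell5 (x : ℝ) (h1 : (-373/200) ≤ x) (h2 : x ≤ (-229/125)) (n1 : x ^ 2 - 3 ≠ 0) (n2 : x + 2 ≠ 0)
    (n3 : x ^ 3 + x ^ 2 - 2 * x - 1 ≠ 0) : 1 + Lg x ≤ P1 x ∧ 1 + Lg x ≤ P2 x := by
  have s1 := bern4 (-3) 0 1 0 0 (-373/200) (-229/125) x (by norm_num) h1 h2 (by norm_num) (by norm_num) (by norm_num) (by norm_num) (by norm_num)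
  have a1 : |x ^ 2 - 3| ≤ x ^ 2 - 3 := abs_le.2 ⟨by linarith, le_rfl⟩
  have e1 := logb (abs_pos.2 n1) E_m7
  have f1 := mul_le_mul_of_nonneg_left a1 (by norm_num : (0 : ℝ) ≤ (14993/6250))
  have s2 := bern4 2 1 0 0 0 (-373/200) (-229/125) x (by norm_num) h1 h2 (by norm_num) (by norm_num) (by norm_num) (by norm_num) (by norm_num)
  have a2 : |x + 2| ≤ x + 2 := abs_le.2 ⟨by linarith, le_rfl⟩
  have e2 := logb (abs_pos.2 n2) E_m15
  have f2 := mul_le_mul_of_nonneg_left a2 (by norm_num : (0 : ℝ) ≤ (326041/50000))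
  have s3 := bern4 1 2 (-1) (-1) 0 (-373/200) (-229/125) x (by norm_num) h1 h2 (by norm_num) (by norm_num) (by norm_num) (by norm_num) (by norm_num)
  have a3 : |x ^ 3 + x ^ 2 - 2 * x - 1| ≤ -(x ^ 3 + x ^ 2 - 2 * x - 1) := abs_le.2 ⟨by linarith, by linarith⟩
  have e3 := logb (abs_pos.2 n3) E_m13
  have f3 := mul_le_mul_of_nonneg_left a3 (by norm_num : (0 : ℝ) ≤ (253921/50000))
  have g1 := bern4 (-12860127/25000000) (-23041953/50000000) (805893/25000000) (301421/5000000) (-199/50000) (-373/200) (-229/125) x (by norm_num) h1 h2 (by norm_num) (by norm_num) (by norm_num) (by norm_num) (by norm_num)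
  have g2 := bern4 (-14657627/25000000) (-18821953/50000000) (988393/25000000) (191921/5000000) 0 (-373/200) (-229/125) x (by norm_num) h1 h2 (by norm_num) (by norm_num) (by norm_num) (by norm_num) (by norm_num)
  unfold Lg P1 P2
  constructor <;> linarith

theorem cell6 (x : ℝ) (h1 : (-229/125) ≤ x) (h2 : x ≤ (-363/200)) (n1 : x ^ 2 - 3 ≠ 0) (n2 : x + 2 ≠ 0)
    (n3 : x ^ 3 + x ^ 2 - 2 * x - 1 ≠ 0) : 1 + Lg x ≤ P1 x ∧ 1 + Lg x ≤ P2 x := by
  have s1 := bern4 (-3) 0 1 0 0 (-229/125) (-363/200) x (by norm_num) h1 h2 (by norm_num) (by norm_num) (by norm_num) (by norm_num) (by norm_num)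
  have a1 : |x ^ 2 - 3| ≤ x ^ 2 - 3 := abs_le.2 ⟨by linarith, le_rfl⟩
  have e1 := logb (abs_pos.2 n1) E_m9
  have f1 := mul_le_mul_of_nonneg_left a1 (by norm_num : (0 : ℝ) ≤ (154011/50000))
  have s2 := bern4 2 1 0 0 0 (-229/125) (-363/200) x (by norm_num) h1 h2 (by norm_num) (by norm_num) (by norm_num) (by norm_num) (by norm_num)
  have a2 : |x + 2| ≤ x + 2 := abs_le.2 ⟨by linarith, le_rfl⟩
  have e2 := logb (abs_pos.2 n2) E_m14
  have f2 := mul_le_mul_of_nonneg_left a2 (by norm_num : (0 : ℝ) ≤ (575461/100000))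
  have s3 := bern4 1 2 (-1) (-1) 0 (-229/125) (-363/200) x (by norm_num) h1 h2 (by norm_num) (by norm_num) (by norm_num) (by norm_num) (by norm_num)
  have a3 : |x ^ 3 + x ^ 2 - 2 * x - 1| ≤ -(x ^ 3 + x ^ 2 - 2 * x - 1) := abs_le.2 ⟨by linarith, by linarith⟩
  have e3 := logb (abs_pos.2 n3) E_m19
  have f3 := mul_le_mul_of_nonneg_left a3 (by norm_num : (0 : ℝ) ≤ (107511/10000))
  have g1 := bern4 (-879621/2000000) (-56433193/100000000) (720261/12500000) (117011/1000000) (-199/50000) (-229/125) (-363/200) x (by norm_num) h1 h2 (by norm_num) (by norm_num) (by norm_num) (by norm_num) (by norm_num)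
  have g2 := bern4 (-1023421/2000000) (-47993193/100000000) (811511/12500000) (95111/1000000) 0 (-229/125) (-363/200) x (by norm_num) h1 h2 (by norm_num) (by norm_num) (by norm_num) (by norm_num) (by norm_num)
  unfold Lg P1 P2
  constructor <;> linarith

theorem cell7 (x : ℝ) (h1 : (-363/200) ≤ x) (h2 : x ≤ (-899/500)) (n1 : x ^ 2 - 3 ≠ 0) (n2 : x + 2 ≠ 0)
    (n3 : x ^ 3 + x ^ 2 - 2 * x - 1 ≠ 0) : 1 + Lg x ≤ P1 x ∧ 1 + Lg x ≤ P2 x := by
  have s1 := bern4 (-3) 0 1 0 0 (-363/200) (-899/500) x (by norm_num) h1 h2 (by norm_num) (by norm_num) (by norm_num) (by norm_num) (by norm_num)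
  have a1 : |x ^ 2 - 3| ≤ x ^ 2 - 3 := abs_le.2 ⟨by linarith, le_rfl⟩
  have e1 := logb (abs_pos.2 n1) E_m11
  have f1 := mul_le_mul_of_nonneg_left a1 (by norm_num : (0 : ℝ) ≤ (98877/25000))
  have s2 := bern4 2 1 0 0 0 (-363/200) (-899/500) x (by norm_num) h1 h2 (by norm_num) (by norm_num) (by norm_num) (by norm_num) (by norm_num)
  have a2 : |x + 2| ≤ x + 2 := abs_le.2 ⟨by linarith, le_rfl⟩
  have e2 := logb (abs_pos.2 n2) E_m13
  have f2 := mul_le_mul_of_nonneg_left a2 (by norm_num : (0 : ℝ) ≤ (253921/50000))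
  have s3 := bern4 (211/200) 2 (-1) (-1) 0 (-363/200) (-899/500) x (by norm_num) h1 h2 (by norm_num) (by norm_num) (by norm_num) (by norm_num) (by norm_num)
  have t3 := bern4 (-189/200) (-2) 1 1 0 (-363/200) (-899/500) x (by norm_num) h1 h2 (by norm_num) (by norm_num) (by norm_num) (by norm_num) (by norm_num)
  have a3 : |x ^ 3 + x ^ 2 - 2 * x - 1| ≤ (11/200) := abs_le.2 ⟨by linarith, by linarith⟩
  have e3 := logb (abs_pos.2 n3) E_m23
  have f3 := mul_le_mul_of_nonneg_left a3 (by norm_num : (0 : ℝ) ≤ (35451/2000))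
  have g1 := bern4 (-37772381/200000000) (-17025973/50000000) (-1126671/12500000) (19/2000) (-199/50000) (-363/200) (-899/500) x (by norm_num) h1 h2 (by norm_num) (by norm_num) (by norm_num) (by norm_num) (by norm_num)
  have g2 := bern4 (-52152381/200000000) (-12805973/50000000) (-1035421/12500000) (-31/2500) 0 (-363/200) (-899/500) x (by norm_num) h1 h2 (by norm_num) (by norm_num) (by norm_num) (by norm_num) (by norm_num)
  unfold Lg P1 P2
  constructor <;> linarith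

theorem cell8 (x : ℝ) (h1 : (-899/500) ≤ x) (h2 : x ≤ (-1781/1000)) (n1 : x ^ 2 - 3 ≠ 0) (n2 : x + 2 ≠ 0)
    (n3 : x ^ 3 + x ^ 2 - 2 * x - 1 ≠ 0) : 1 + Lg x ≤ P1 x ∧ 1 + Lg x ≤ P2 x := by
  have s1 := bern4 (-3) 0 1 0 0 (-899/500) (-1781/1000) x (by norm_num) h1 h2 (by norm_num) (by norm_num) (by norm_num) (by norm_num) (by norm_num)
  have a1 : |x ^ 2 - 3| ≤ x ^ 2 - 3 := abs_le.2 ⟨by linarith, le_rfl⟩
  have e1 := logb (abs_pos.2 n1) E_m13
  have f1 := mul_le_mul_of_nonneg_left a1 (by norm_num : (0 : ℝ) ≤ (253921/50000))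
  have s2 := bern4 2 1 0 0 0 (-899/500) (-1781/1000) x (by norm_num) h1 h2 (by norm_num) (by norm_num) (by norm_num) (by norm_num) (by norm_num)
  have a2 : |x + 2| ≤ x + 2 := abs_le.2 ⟨by linarith, le_rfl⟩
  have e2 := logb (abs_pos.2 n2) E_m12
  have f2 := mul_le_mul_of_nonneg_left a2 (by norm_num : (0 : ℝ) ≤ (448169/100000))
  have s3 := bern4 (-1) (-2) 1 1 0 (-899/500) (-1781/1000) x (by norm_num) h1 h2 (by norm_num) (by norm_num) (by norm_num) (by norm_num) (by norm_num)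
  have a3 : |x ^ 3 + x ^ 2 - 2 * x - 1| ≤ x ^ 3 + x ^ 2 - 2 * x - 1 := abs_le.2 ⟨by linarith, le_rfl⟩
  have e3 := logb (abs_pos.2 n3) E_m23
  have f3 := mul_le_mul_of_nonneg_left a3 (by norm_num : (0 : ℝ) ≤ (35451/2000))
  have g1 := bern4 (8927651/50000000) (2174803/100000000) (-3988279/12500000) (-33551/200000) (-199/50000) (-899/500) (-1781/1000) x (by norm_num) h1 h2 (by norm_num) (by norm_num) (by norm_num) (by norm_num) (by norm_num)
  have g2 := bern4 (5332651/50000000) (10614803/100000000) (-3897029/12500000) (-37931/200000) 0 (-899/500) (-1781/1000) x (by norm_num) h1 h2 (by norm_num) (by norm_num) (by norm_num) (by norm_num) (by norm_num)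
  unfold Lg P1 P2
  constructor <;> linarith

theorem cell9 (x : ℝ) (h1 : (-1781/1000) ≤ x) (h2 : x ≤ (-441/250)) (n1 : x ^ 2 - 3 ≠ 0) (n2 : x + 2 ≠ 0)
    (n3 : x ^ 3 + x ^ 2 - 2 * x - 1 ≠ 0) : 1 + Lg x ≤ P1 x ∧ 1 + Lg x ≤ P2 x := by
  have s1 := bern4 (-3) 0 1 0 0 (-1781/1000) (-441/250) x (by norm_num) h1 h2 (by norm_num) (by norm_num) (by norm_num) (by norm_num) (by norm_num)
  have a1 : |x ^ 2 - 3| ≤ x ^ 2 - 3 := abs_le.2 ⟨by linarith, le_rfl⟩
  have e1 := logb (abs_pos.2 n1) E_m15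
  have f1 := mul_le_mul_of_nonneg_left a1 (by norm_num : (0 : ℝ) ≤ (326041/50000))
  have s2 := bern4 2 1 0 0 0 (-1781/1000) (-441/250) x (by norm_num) h1 h2 (by norm_num) (by norm_num) (by norm_num) (by norm_num) (by norm_num)
  have a2 : |x + 2| ≤ x + 2 := abs_le.2 ⟨by linarith, le_rfl⟩
  have e2 := logb (abs_pos.2 n2) E_m12
  have f2 := mul_le_mul_of_nonneg_left a2 (by norm_num : (0 : ℝ) ≤ (448169/100000))
  have s3 := bern4 (-1) (-2) 1 1 0 (-1781/1000) (-441/250) x (by norm_num) h1 h2 (by norm_num) (by norm_num) (by norm_num) (by norm_num) (by norm_num)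
  have a3 : |x ^ 3 + x ^ 2 - 2 * x - 1| ≤ x ^ 3 + x ^ 2 - 2 * x - 1 := abs_le.2 ⟨by linarith, le_rfl⟩
  have e3 := logb (abs_pos.2 n3) E_m17
  have f3 := mul_le_mul_of_nonneg_left a3 (by norm_num : (0 : ℝ) ≤ (83729/10000))
  have g1 := bern4 (14403911/50000000) (-16530397/100000000) (-456073/1562500) (-74229/1000000) (-199/50000) (-1781/1000) (-441/250) x (by norm_num) h1 h2 (by norm_num) (by norm_num) (by norm_num) (by norm_num) (by norm_num)
  have g2 := bern4 (10808911/50000000) (-8090397/100000000) (-1778667/6250000) (-96129/1000000) 0 (-1781/1000) (-441/250) x (by norm_num) h1 h2 (by norm_num) (by norm_num) (by norm_num) (by norm_num) (by norm_num)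
  unfold Lg P1 P2
  constructor <;> linarith

theorem cell10 (x : ℝ) (h1 : (-441/250) ≤ x) (h2 : x ≤ (-1747/1000)) (n1 : x ^ 2 - 3 ≠ 0) (n2 : x + 2 ≠ 0)
    (n3 : x ^ 3 + x ^ 2 - 2 * x - 1 ≠ 0) : 1 + Lg x ≤ P1 x ∧ 1 + Lg x ≤ P2 x := by
  have s1 := bern4 (-3) 0 1 0 0 (-441/250) (-1747/1000) x (by norm_num) h1 h2 (by norm_num) (by norm_num) (by norm_num) (by norm_num) (by norm_num)
  have a1 : |x ^ 2 - 3| ≤ x ^ 2 - 3 := abs_le.2 ⟨by linarith, le_rfl⟩
  have e1 := logb (abs_pos.2 n1) E_m20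
  have f1 := mul_le_mul_of_nonneg_left a1 (by norm_num : (0 : ℝ) ≤ (4873/400))
  have s2 := bern4 2 1 0 0 0 (-441/250) (-1747/1000) x (by norm_num) h1 h2 (by norm_num) (by norm_num) (by norm_num) (by norm_num) (by norm_num)
  have a2 : |x + 2| ≤ x + 2 := abs_le.2 ⟨by linarith, le_rfl⟩
  have e2 := logb (abs_pos.2 n2) E_m11
  have f2 := mul_le_mul_of_nonneg_left a2 (by norm_num : (0 : ℝ) ≤ (98877/25000))
  have s3 := bern4 (-1) (-2) 1 1 0 (-441/250) (-1747/1000) x (by norm_num) h1 h2 (by norm_num) (by norm_num) (by norm_num) (by norm_num) (by norm_num)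
  have a3 : |x ^ 3 + x ^ 2 - 2 * x - 1| ≤ x ^ 3 + x ^ 2 - 2 * x - 1 := abs_le.2 ⟨by linarith, le_rfl⟩
  have e3 := logb (abs_pos.2 n3) E_m14
  have f3 := mul_le_mul_of_nonneg_left a3 (by norm_num : (0 : ℝ) ≤ (575461/100000))
  have g1 := bern4 (54013701/50000000) (-1317649/6250000) (-5261411/10000000) (-480461/10000000) (-199/50000) (-441/250) (-1747/1000) x (by norm_num) h1 h2 (by norm_num) (by norm_num) (by norm_num) (by norm_num) (by norm_num)
  have g2 := bern4 (50418701/50000000) (-790149/6250000) (-5188411/10000000) (-699461/10000000) 0 (-441/250) (-1747/1000) x (by norm_num) h1 h2 (by norm_num) (by norm_num) (by norm_num) (by norm_num) (by norm_num)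
  unfold Lg P1 P2
  constructor <;> linarith

theorem cell11 (x : ℝ) (h1 : (-1747/1000) ≤ x) (h2 : x ≤ (-173/100)) (n1 : x ^ 2 - 3 ≠ 0) (n2 : x + 2 ≠ 0)
    (n3 : x ^ 3 + x ^ 2 - 2 * x - 1 ≠ 0) : 1 + Lg x ≤ P1 x ∧ 1 + Lg x ≤ P2 x := by
  have s1 := bern4 (3053/1000) 0 (-1) 0 0 (-1747/1000) (-173/100) x (by norm_num) h1 h2 (by norm_num) (by norm_num) (by norm_num) (by norm_num) (by norm_num)
  have t1 := bern4 (-2947/1000) 0 1 0 0 (-1747/1000) (-173/100) x (by norm_num) h1 h2 (by norm_num) (by norm_num) (by norm_num) (by norm_num) (by norm_num)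
  have a1 : |x ^ 2 - 3| ≤ (53/1000) := abs_le.2 ⟨by linarith, by linarith⟩
  have e1 := logb (abs_pos.2 n1) E_m23
  have f1 := mul_le_mul_of_nonneg_left a1 (by norm_num : (0 : ℝ) ≤ (35451/2000))
  have s2 := bern4 2 1 0 0 0 (-1747/1000) (-173/100) x (by norm_num) h1 h2 (by norm_num) (by norm_num) (by norm_num) (by norm_num) (by norm_num)
  have a2 : |x + 2| ≤ x + 2 := abs_le.2 ⟨by linarith, le_rfl⟩
  have e2 := logb (abs_pos.2 n2) E_m11
  have f2 := mul_le_mul_of_nonneg_left a2 (by norm_num : (0 : ℝ) ≤ (98877/25000))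
  have s3 := bern4 (-1) (-2) 1 1 0 (-1747/1000) (-173/100) x (by norm_num) h1 h2 (by norm_num) (by norm_num) (by norm_num) (by norm_num) (by norm_num)
  have a3 : |x ^ 3 + x ^ 2 - 2 * x - 1| ≤ x ^ 3 + x ^ 2 - 2 * x - 1 := abs_le.2 ⟨by linarith, le_rfl⟩
  have e3 := logb (abs_pos.2 n3) E_m11
  have f3 := mul_le_mul_of_nonneg_left a3 (by norm_num : (0 : ℝ) ≤ (98877/25000))
  have g1 := bern4 (-648621049/1000000000) (-6170361/25000000) (130623/2500000) (-75127/2500000) (-199/50000) (-1747/1000) (-173/100) x (by norm_num) h1 h2 (by norm_num) (by norm_num) (by norm_num) (by norm_num) (by norm_num)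
  have g2 := bern4 (-720521049/1000000000) (-4060361/25000000) (148873/2500000) (-129877/2500000) 0 (-1747/1000) (-173/100) x (by norm_num) h1 h2 (by norm_num) (by norm_num) (by norm_num) (by norm_num) (by norm_num)
  unfold Lg P1 P2
  constructor <;> linarith

theorem cell12 (x : ℝ) (h1 : (-173/100) ≤ x) (h2 : x ≤ (-149/500)) (n1 : x ^ 2 - 3 ≠ 0) (n2 : x + 2 ≠ 0)
    (n3 : x ^ 3 + x ^ 2 - 2 * x - 1 ≠ 0) : 0 + Lg x ≤ P1 x ∧ 0 + Lg x ≤ P2 x := by
  have s1 := bern4 3 0 (-1) 0 0 (-173/100) (-149/500) x (by norm_num) h1 h2 (by norm_num) (by norm_num) (by norm_num) (by norm_num) (by norm_num)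
  have a1 : |x ^ 2 - 3| ≤ -(x ^ 2 - 3) := abs_le.2 ⟨by linarith, by linarith⟩
  have e1 := logb (abs_pos.2 n1) E_5
  have f1 := mul_le_mul_of_nonneg_left a1 (by norm_num : (0 : ℝ) ≤ (267631/500000))
  have s2 := bern4 2 1 0 0 0 (-173/100) (-149/500) x (by norm_num) h1 h2 (by norm_num) (by norm_num) (by norm_num) (by norm_num) (by norm_num)
  have a2 : |x + 2| ≤ x + 2 := abs_le.2 ⟨by linarith, le_rfl⟩
  have e2 := logb (abs_pos.2 n2) E_0
  have f2 := mul_le_mul_of_nonneg_left a2 (by norm_num : (0 : ℝ) ≤ (100001/100000))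
  have s3 := bern4 (591/200) 2 (-1) (-1) 0 (-173/100) (-149/500) x (by norm_num) h1 h2 (by norm_num) (by norm_num) (by norm_num) (by norm_num) (by norm_num)
  have t3 := bern4 (191/200) (-2) 1 1 0 (-173/100) (-149/500) x (by norm_num) h1 h2 (by norm_num) (by norm_num) (by norm_num) (by norm_num) (by norm_num)
  have a3 : |x ^ 3 + x ^ 2 - 2 * x - 1| ≤ (391/200) := abs_le.2 ⟨by linarith, by linarith⟩
  have e3 := logb (abs_pos.2 n3) E_5
  have f3 := mul_le_mul_of_nonneg_left a3 (by norm_num : (0 : ℝ) ≤ (267631/500000))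
  have g1 := bern4 (1486692119/10000000000) (-28750013/100000000) (29105513/250000000) (19/2000) (-199/50000) (-173/100) (-149/500) x (by norm_num) h1 h2 (by norm_num) (by norm_num) (by norm_num) (by norm_num) (by norm_num)
  have g2 := bern4 (767692119/10000000000) (-20310013/100000000) (30930513/250000000) (-31/2500) 0 (-173/100) (-149/500) x (by norm_num) h1 h2 (by norm_num) (by norm_num) (by norm_num) (by norm_num) (by norm_num)
  unfold Lg P1 P2
  constructor <;> linarith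

theorem cell13 (x : ℝ) (h1 : (-149/500) ≤ x) (h2 : x ≤ (209/500)) (n1 : x ^ 2 - 3 ≠ 0) (n2 : x + 2 ≠ 0)
    (n3 : x ^ 3 + x ^ 2 - 2 * x - 1 ≠ 0) : 0 + Lg x ≤ P1 x ∧ 0 + Lg x ≤ P2 x := by
  have s1 := bern4 3 0 (-1) 0 0 (-149/500) (209/500) x (by norm_num) h1 h2 (by norm_num) (by norm_num) (by norm_num) (by norm_num) (by norm_num)
  have a1 : |x ^ 2 - 3| ≤ -(x ^ 2 - 3) := abs_le.2 ⟨by linarith, by linarith⟩
  have e1 := logb (abs_pos.2 n1) E_9
  have f1 := mul_le_mul_of_nonneg_left a1 (by norm_num : (0 : ℝ) ≤ (324653/1000000))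
  have s2 := bern4 2 1 0 0 0 (-149/500) (209/500) x (by norm_num) h1 h2 (by norm_num) (by norm_num) (by norm_num) (by norm_num) (by norm_num)
  have a2 : |x + 2| ≤ x + 2 := abs_le.2 ⟨by linarith, le_rfl⟩
  have e2 := logb (abs_pos.2 n2) E_6
  have f2 := mul_le_mul_of_nonneg_left a2 (by norm_num : (0 : ℝ) ≤ (472367/1000000))
  have s3 := bern4 1 2 (-1) (-1) 0 (-149/500) (209/500) x (by norm_num) h1 h2 (by norm_num) (by norm_num) (by norm_num) (by norm_num) (by norm_num)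
  have a3 : |x ^ 3 + x ^ 2 - 2 * x - 1| ≤ -(x ^ 3 + x ^ 2 - 2 * x - 1) := abs_le.2 ⟨by linarith, by linarith⟩
  have e3 := logb (abs_pos.2 n3) E_1
  have f3 := mul_le_mul_of_nonneg_left a3 (by norm_num : (0 : ℝ) ≤ (882497/1000000))
  have g1 := bern4 (82670687/500000000) (-298290711/1000000000) (3611219/31250000) (1832497/100000000) (-199/50000) (-149/500) (209/500) x (by norm_num) h1 h2 (by norm_num) (by norm_num) (by norm_num) (by norm_num) (by norm_num)
  have g2 := bern4 (46720687/500000000) (-213890711/1000000000) (239959/1953125) (-357503/100000000) 0 (-149/500) (209/500) x (by norm_num) h1 h2 (by norm_num) (by norm_num) (by norm_num) (by norm_num) (by norm_num)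
  unfold Lg P1 P2
  constructor <;> linarith

theorem cell14 (x : ℝ) (h1 : (209/500) ≤ x) (h2 : x ≤ (97/125)) (n1 : x ^ 2 - 3 ≠ 0) (n2 : x + 2 ≠ 0)
    (n3 : x ^ 3 + x ^ 2 - 2 * x - 1 ≠ 0) : 0 + Lg x ≤ P1 x ∧ 0 + Lg x ≤ P2 x := by
  have s1 := bern4 3 0 (-1) 0 0 (209/500) (97/125) x (by norm_num) h1 h2 (by norm_num) (by norm_num) (by norm_num) (by norm_num) (by norm_num)
  have a1 : |x ^ 2 - 3| ≤ -(x ^ 2 - 3) := abs_le.2 ⟨by linarith, by linarith⟩
  have e1 := logb (abs_pos.2 n1) E_8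
  have f1 := mul_le_mul_of_nonneg_left a1 (by norm_num : (0 : ℝ) ≤ (9197/25000))
  have s2 := bern4 2 1 0 0 0 (209/500) (97/125) x (by norm_num) h1 h2 (by norm_num) (by norm_num) (by norm_num) (by norm_num) (by norm_num)
  have a2 : |x + 2| ≤ x + 2 := abs_le.2 ⟨by linarith, le_rfl⟩
  have e2 := logb (abs_pos.2 n2) E_8
  have f2 := mul_le_mul_of_nonneg_left a2 (by norm_num : (0 : ℝ) ≤ (9197/25000))
  have s3 := bern4 1 2 (-1) (-1) 0 (209/500) (97/125) x (by norm_num) h1 h2 (by norm_num) (by norm_num) (by norm_num) (by norm_num) (by norm_num)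
  have a3 : |x ^ 3 + x ^ 2 - 2 * x - 1| ≤ -(x ^ 3 + x ^ 2 - 2 * x - 1) := abs_le.2 ⟨by linarith, by linarith⟩
  have e3 := logb (abs_pos.2 n3) E_4
  have f3 := mul_le_mul_of_nonneg_left a3 (by norm_num : (0 : ℝ) ≤ (606531/1000000))
  have g1 := bern4 (16360237/100000000) (-14570653/50000000) (11478779/100000000) (1556531/100000000) (-199/50000) (209/500) (97/125) x (by norm_num) h1 h2 (by norm_num) (by norm_num) (by norm_num) (by norm_num) (by norm_num)
  have g2 := bern4 (9170237/100000000) (-10350653/50000000) (12208779/100000000) (-633469/100000000) 0 (209/500) (97/125) x (by norm_num) h1 h2 (by norm_num) (by norm_num) (by norm_num) (by norm_num) (by norm_num)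
  unfold Lg P1 P2
  constructor <;> linarith

theorem cell15 (x : ℝ) (h1 : (97/125) ≤ x) (h2 : x ≤ (239/250)) (n1 : x ^ 2 - 3 ≠ 0) (n2 : x + 2 ≠ 0)
    (n3 : x ^ 3 + x ^ 2 - 2 * x - 1 ≠ 0) : 0 + Lg x ≤ P1 x ∧ 0 + Lg x ≤ P2 x := by
  have s1 := bern4 3 0 (-1) 0 0 (97/125) (239/250) x (by norm_num) h1 h2 (by norm_num) (by norm_num) (by norm_num) (by norm_num) (by norm_num)
  have a1 : |x ^ 2 - 3| ≤ -(x ^ 2 - 3) := abs_le.2 ⟨by linarith, by linarith⟩
  have e1 := logb (abs_pos.2 n1) E_6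
  have f1 := mul_le_mul_of_nonneg_left a1 (by norm_num : (0 : ℝ) ≤ (472367/1000000))
  have s2 := bern4 2 1 0 0 0 (97/125) (239/250) x (by norm_num) h1 h2 (by norm_num) (by norm_num) (by norm_num) (by norm_num) (by norm_num)
  have a2 : |x + 2| ≤ x + 2 := abs_le.2 ⟨by linarith, le_rfl⟩
  have e2 := logb (abs_pos.2 n2) E_8
  have f2 := mul_le_mul_of_nonneg_left a2 (by norm_num : (0 : ℝ) ≤ (9197/25000))
  have s3 := bern4 1 2 (-1) (-1) 0 (97/125) (239/250) x (by norm_num) h1 h2 (by norm_num) (by norm_num) (by norm_num) (by norm_num) (by norm_num)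
  have a3 : |x ^ 3 + x ^ 2 - 2 * x - 1| ≤ -(x ^ 3 + x ^ 2 - 2 * x - 1) := abs_le.2 ⟨by linarith, by linarith⟩
  have e3 := logb (abs_pos.2 n3) E_2
  have f3 := mul_le_mul_of_nonneg_left a3 (by norm_num : (0 : ℝ) ≤ (778801/1000000))
  have g1 := bern4 (10091279/62500000) (-14742923/50000000) (30329223/250000000) (1728801/100000000) (-199/50000) (97/125) (239/250) x (by norm_num) h1 h2 (by norm_num) (by norm_num) (by norm_num) (by norm_num) (by norm_num)
  have g2 := bern4 (5597529/62500000) (-10522923/50000000) (32154223/250000000) (-461199/100000000) 0 (97/125) (239/250) x (by norm_num) h1 h2 (by norm_num) (by norm_num) (by norm_num) (by norm_num) (by norm_num)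
  unfold Lg P1 P2
  constructor <;> linarith

theorem cell16 (x : ℝ) (h1 : (239/250) ≤ x) (h2 : x ≤ (227/200)) (n1 : x ^ 2 - 3 ≠ 0) (n2 : x + 2 ≠ 0)
    (n3 : x ^ 3 + x ^ 2 - 2 * x - 1 ≠ 0) : 0 + Lg x ≤ P1 x ∧ 0 + Lg x ≤ P2 x := by
  have s1 := bern4 3 0 (-1) 0 0 (239/250) (227/200) x (by norm_num) h1 h2 (by norm_num) (by norm_num) (by norm_num) (by norm_num) (by norm_num)
  have a1 : |x ^ 2 - 3| ≤ -(x ^ 2 - 3) := abs_le.2 ⟨by linarith, by linarith⟩
  have e1 := logb (abs_pos.2 n1) E_5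
  have f1 := mul_le_mul_of_nonneg_left a1 (by norm_num : (0 : ℝ) ≤ (267631/500000))
  have s2 := bern4 2 1 0 0 0 (239/250) (227/200) x (by norm_num) h1 h2 (by norm_num) (by norm_num) (by norm_num) (by norm_num) (by norm_num)
  have a2 : |x + 2| ≤ x + 2 := abs_le.2 ⟨by linarith, le_rfl⟩
  have e2 := logb (abs_pos.2 n2) E_9
  have f2 := mul_le_mul_of_nonneg_left a2 (by norm_num : (0 : ℝ) ≤ (324653/1000000))
  have s3 := bern4 1 2 (-1) (-1) 0 (239/250) (227/200) x (by norm_num) h1 h2 (by norm_num) (by norm_num) (by norm_num) (by norm_num) (by norm_num)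
  have a3 : |x ^ 3 + x ^ 2 - 2 * x - 1| ≤ -(x ^ 3 + x ^ 2 - 2 * x - 1) := abs_le.2 ⟨by linarith, by linarith⟩
  have e3 := logb (abs_pos.2 n3) E_m1
  have f3 := mul_le_mul_of_nonneg_left a3 (by norm_num : (0 : ℝ) ≤ (22663/20000))
  have g1 := bern4 (79118183/500000000) (-301383489/1000000000) (7984597/62500000) (41663/2000000) (-199/50000) (239/250) (227/200) x (by norm_num) h1 h2 (by norm_num) (by norm_num) (by norm_num) (by norm_num) (by norm_num)
  have g2 := bern4 (43168183/500000000) (-216983489/1000000000) (8440847/62500000) (-2137/2000000) 0 (239/250) (227/200) x (by norm_num) h1 h2 (by norm_num) (by norm_num) (by norm_num) (by norm_num) (by norm_num)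
  unfold Lg P1 P2
  constructor <;> linarith

theorem cell17 (x : ℝ) (h1 : (227/200) ≤ x) (h2 : x ≤ (657/500)) (n1 : x ^ 2 - 3 ≠ 0) (n2 : x + 2 ≠ 0)
    (n3 : x ^ 3 + x ^ 2 - 2 * x - 1 ≠ 0) : 0 + Lg x ≤ P1 x ∧ 0 + Lg x ≤ P2 x := by
  have s1 := bern4 3 0 (-1) 0 0 (227/200) (657/500) x (by norm_num) h1 h2 (by norm_num) (by norm_num) (by norm_num) (by norm_num) (by norm_num)
  have a1 : |x ^ 2 - 3| ≤ -(x ^ 2 - 3) := abs_le.2 ⟨by linarith, by linarith⟩
  have e1 := logb (abs_pos.2 n1) E_3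
  have f1 := mul_le_mul_of_nonneg_left a1 (by norm_num : (0 : ℝ) ≤ (68729/100000))
  have s2 := bern4 2 1 0 0 0 (227/200) (657/500) x (by norm_num) h1 h2 (by norm_num) (by norm_num) (by norm_num) (by norm_num) (by norm_num)
  have a2 : |x + 2| ≤ x + 2 := abs_le.2 ⟨by linarith, le_rfl⟩
  have e2 := logb (abs_pos.2 n2) E_9
  have f2 := mul_le_mul_of_nonneg_left a2 (by norm_num : (0 : ℝ) ≤ (324653/1000000))
  have s3 := bern4 (38/25) 2 (-1) (-1) 0 (227/200) (657/500) x (by norm_num) h1 h2 (by norm_num) (by norm_num) (by norm_num) (by norm_num) (by norm_num)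
  have t3 := bern4 (-12/25) (-2) 1 1 0 (227/200) (657/500) x (by norm_num) h1 h2 (by norm_num) (by norm_num) (by norm_num) (by norm_num) (by norm_num)
  have a3 : |x ^ 3 + x ^ 2 - 2 * x - 1| ≤ (13/25) := abs_le.2 ⟨by linarith, by linarith⟩
  have e3 := logb (abs_pos.2 n3) E_m5
  have f3 := mul_le_mul_of_nonneg_left a3 (by norm_num : (0 : ℝ) ≤ (7473/4000))
  have g1 := bern4 (77686551/500000000) (-278720489/1000000000) (6170767/50000000) (19/2000) (-199/50000) (227/200) (657/500) x (by norm_num) h1 h2 (by norm_num) (by norm_num) (by norm_num) (by norm_num) (by norm_num)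
  have g2 := bern4 (41736551/500000000) (-194320489/1000000000) (6535767/50000000) (-31/2500) 0 (227/200) (657/500) x (by norm_num) h1 h2 (by norm_num) (by norm_num) (by norm_num) (by norm_num) (by norm_num)
  unfold Lg P1 P2
  constructor <;> linarith

theorem cell18 (x : ℝ) (h1 : (657/500) ≤ x) (h2 : x ≤ (747/500)) (n1 : x ^ 2 - 3 ≠ 0) (n2 : x + 2 ≠ 0)
    (n3 : x ^ 3 + x ^ 2 - 2 * x - 1 ≠ 0) : 0 + Lg x ≤ P1 x ∧ 0 + Lg x ≤ P2 x := by
  have s1 := bern4 3 0 (-1) 0 0 (657/500) (747/500) x (by norm_num) h1 h2 (by norm_num) (by norm_num) (by norm_num) (by norm_num) (by norm_num)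
  have a1 : |x ^ 2 - 3| ≤ -(x ^ 2 - 3) := abs_le.2 ⟨by linarith, by linarith⟩
  have e1 := logb (abs_pos.2 n1) E_0
  have f1 := mul_le_mul_of_nonneg_left a1 (by norm_num : (0 : ℝ) ≤ (100001/100000))
  have s2 := bern4 2 1 0 0 0 (657/500) (747/500) x (by norm_num) h1 h2 (by norm_num) (by norm_num) (by norm_num) (by norm_num) (by norm_num)
  have a2 : |x + 2| ≤ x + 2 := abs_le.2 ⟨by linarith, le_rfl⟩
  have e2 := logb (abs_pos.2 n2) E_10
  have f2 := mul_le_mul_of_nonneg_left a2 (by norm_num : (0 : ℝ) ≤ (57301/200000))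
  have s3 := bern4 (-1) (-2) 1 1 0 (657/500) (747/500) x (by norm_num) h1 h2 (by norm_num) (by norm_num) (by norm_num) (by norm_num) (by norm_num)
  have a3 : |x ^ 3 + x ^ 2 - 2 * x - 1| ≤ x ^ 3 + x ^ 2 - 2 * x - 1 := abs_le.2 ⟨by linarith, le_rfl⟩
  have e3 := logb (abs_pos.2 n3) E_m1
  have f3 := mul_le_mul_of_nonneg_left a3 (by norm_num : (0 : ℝ) ≤ (22663/20000))
  have g1 := bern4 (14488099/100000000) (-51112313/200000000) (790431/6250000) (-3663/2000000) (-199/50000) (657/500) (747/500) x (by norm_num) h1 h2 (by norm_num) (by norm_num) (by norm_num) (by norm_num) (by norm_num)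
  have g2 := bern4 (7298099/100000000) (-34232313/200000000) (104507/781250) (-47463/2000000) 0 (657/500) (747/500) x (by norm_num) h1 h2 (by norm_num) (by norm_num) (by norm_num) (by norm_num) (by norm_num)
  unfold Lg P1 P2
  constructor <;> linarith

theorem cell19 (x : ℝ) (h1 : (747/500) ≤ x) (h2 : x ≤ (463/250)) (n1 : x ^ 2 - 3 ≠ 0) (n2 : x + 2 ≠ 0)
    (n3 : x ^ 3 + x ^ 2 - 2 * x - 1 ≠ 0) : 0 + Lg x ≤ P1 x ∧ 0 + Lg x ≤ P2 x := by
  have s1 := bern4 (471/125) 0 (-1) 0 0 (747/500) (463/250) x (by norm_num) h1 h2 (by norm_num) (by norm_num) (by norm_num) (by norm_num) (by norm_num)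
  have t1 := bern4 (-279/125) 0 1 0 0 (747/500) (463/250) x (by norm_num) h1 h2 (by norm_num) (by norm_num) (by norm_num) (by norm_num) (by norm_num)
  have a1 : |x ^ 2 - 3| ≤ (96/125) := abs_le.2 ⟨by linarith, by linarith⟩
  have e1 := logb (abs_pos.2 n1) E_m2
  have f1 := mul_le_mul_of_nonneg_left a1 (by norm_num : (0 : ℝ) ≤ (128403/100000))
  have s2 := bern4 2 1 0 0 0 (747/500) (463/250) x (by norm_num) h1 h2 (by norm_num) (by norm_num) (by norm_num) (by norm_num) (by norm_num)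
  have a2 : |x + 2| ≤ x + 2 := abs_le.2 ⟨by linarith, le_rfl⟩
  have e2 := logb (abs_pos.2 n2) E_10
  have f2 := mul_le_mul_of_nonneg_left a2 (by norm_num : (0 : ℝ) ≤ (57301/200000))
  have s3 := bern4 (-1) (-2) 1 1 0 (747/500) (463/250) x (by norm_num) h1 h2 (by norm_num) (by norm_num) (by norm_num) (by norm_num) (by norm_num)
  have a3 : |x ^ 3 + x ^ 2 - 2 * x - 1| ≤ x ^ 3 + x ^ 2 - 2 * x - 1 := abs_le.2 ⟨by linarith, le_rfl⟩
  have e3 := logb (abs_pos.2 n3) E_9
  have f3 := mul_le_mul_of_nonneg_left a3 (by norm_num : (0 : ℝ) ≤ (324653/1000000))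
  have g1 := bern4 (713859963/3125000000) (-54346301/200000000) (8855347/100000000) (625347/100000000) (-199/50000) (747/500) (463/250) x (by norm_num) h1 h2 (by norm_num) (by norm_num) (by norm_num) (by norm_num) (by norm_num)
  have g2 := bern4 (489172463/3125000000) (-37466301/200000000) (9585347/100000000) (-1564653/100000000) 0 (747/500) (463/250) x (by norm_num) h1 h2 (by norm_num) (by norm_num) (by norm_num) (by norm_num) (by norm_num)
  unfold Lg P1 P2
  constructor <;> linarith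

theorem cell20 (x : ℝ) (h1 : (463/250) ≤ x) (h2 : x ≤ (2031/1000)) (n1 : x ^ 2 - 3 ≠ 0) (n2 : x + 2 ≠ 0)
    (n3 : x ^ 3 + x ^ 2 - 2 * x - 1 ≠ 0) : 0 + Lg x ≤ P1 x ∧ 0 + Lg x ≤ P2 x := by
  have s1 := bern4 (-3) 0 1 0 0 (463/250) (2031/1000) x (by norm_num) h1 h2 (by norm_num) (by norm_num) (by norm_num) (by norm_num) (by norm_num)
  have a1 : |x ^ 2 - 3| ≤ x ^ 2 - 3 := abs_le.2 ⟨by linarith, le_rfl⟩
  have e1 := logb (abs_pos.2 n1) E_m2
  have f1 := mul_le_mul_of_nonneg_left a1 (by norm_num : (0 : ℝ) ≤ (128403/100000))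
  have s2 := bern4 2 1 0 0 0 (463/250) (2031/1000) x (by norm_num) h1 h2 (by norm_num) (by norm_num) (by norm_num) (by norm_num) (by norm_num)
  have a2 : |x + 2| ≤ x + 2 := abs_le.2 ⟨by linarith, le_rfl⟩
  have e2 := logb (abs_pos.2 n2) E_11
  have f2 := mul_le_mul_of_nonneg_left a2 (by norm_num : (0 : ℝ) ≤ (6321/25000))
  have s3 := bern4 (-1) (-2) 1 1 0 (463/250) (2031/1000) x (by norm_num) h1 h2 (by norm_num) (by norm_num) (by norm_num) (by norm_num) (by norm_num)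
  have a3 : |x ^ 3 + x ^ 2 - 2 * x - 1| ≤ x ^ 3 + x ^ 2 - 2 * x - 1 := abs_le.2 ⟨by linarith, le_rfl⟩
  have e3 := logb (abs_pos.2 n3) E_15
  have f3 := mul_le_mul_of_nonneg_left a3 (by norm_num : (0 : ℝ) ≤ (30671/200000))
  have g1 := bern4 (8820617/20000000) (-13735991/50000000) (3120107/100000000) (159329/20000000) (-199/50000) (463/250) (2031/1000) x (by norm_num) h1 h2 (by norm_num) (by norm_num) (by norm_num) (by norm_num) (by norm_num)
  have g2 := bern4 (7382617/20000000) (-9515991/50000000) (3850107/100000000) (-278671/20000000) 0 (463/250) (2031/1000) x (by norm_num) h1 h2 (by norm_num) (by norm_num) (by norm_num) (by norm_num) (by norm_num)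
  unfold Lg P1 P2
  constructor <;> linarith

theorem cell21 (x : ℝ) (h1 : (2031/1000) ≤ x) (h2 : x ≤ (221/100)) (n1 : x ^ 2 - 3 ≠ 0) (n2 : x + 2 ≠ 0)
    (n3 : x ^ 3 + x ^ 2 - 2 * x - 1 ≠ 0) : 0 + Lg x ≤ P1 x ∧ 0 + Lg x ≤ P2 x := by
  have s1 := bern4 (-3) 0 1 0 0 (2031/1000) (221/100) x (by norm_num) h1 h2 (by norm_num) (by norm_num) (by norm_num) (by norm_num) (by norm_num)
  have a1 : |x ^ 2 - 3| ≤ x ^ 2 - 3 := abs_le.2 ⟨by linarith, le_rfl⟩
  have e1 := logb (abs_pos.2 n1) E_3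
  have f1 := mul_le_mul_of_nonneg_left a1 (by norm_num : (0 : ℝ) ≤ (68729/100000))
  have s2 := bern4 2 1 0 0 0 (2031/1000) (221/100) x (by norm_num) h1 h2 (by norm_num) (by norm_num) (by norm_num) (by norm_num) (by norm_num)
  have a2 : |x + 2| ≤ x + 2 := abs_le.2 ⟨by linarith, le_rfl⟩
  have e2 := logb (abs_pos.2 n2) E_11
  have f2 := mul_le_mul_of_nonneg_left a2 (by norm_num : (0 : ℝ) ≤ (6321/25000))
  have s3 := bern4 (-1) (-2) 1 1 0 (2031/1000) (221/100) x (by norm_num) h1 h2 (by norm_num) (by norm_num) (by norm_num) (by norm_num) (by norm_num)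
  have a3 : |x ^ 3 + x ^ 2 - 2 * x - 1| ≤ x ^ 3 + x ^ 2 - 2 * x - 1 := abs_le.2 ⟨by linarith, le_rfl⟩
  have e3 := logb (abs_pos.2 n3) E_17
  have f3 := mul_le_mul_of_nonneg_left a3 (by norm_num : (0 : ℝ) ≤ (119433/1000000))
  have g1 := bern4 (32709151/100000000) (-13769913/50000000) (5899033/100000000) (830567/100000000) (-199/50000) (2031/1000) (221/100) x (by norm_num) h1 h2 (by norm_num) (by norm_num) (by norm_num) (by norm_num) (by norm_num)
  have g2 := bern4 (25519151/100000000) (-9549913/50000000) (6629033/100000000) (-1359433/100000000) 0 (2031/1000) (221/100) x (by norm_num) h1 h2 (by norm_num) (by norm_num) (by norm_num) (by norm_num) (by norm_num)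
  unfold Lg P1 P2
  constructor <;> linarith

theorem cell22 (x : ℝ) (h1 : (221/100) ≤ x) (h2 : x ≤ (2389/1000)) (n1 : x ^ 2 - 3 ≠ 0) (n2 : x + 2 ≠ 0)
    (n3 : x ^ 3 + x ^ 2 - 2 * x - 1 ≠ 0) : 0 + Lg x ≤ P1 x ∧ 0 + Lg x ≤ P2 x := by
  have s1 := bern4 (-3) 0 1 0 0 (221/100) (2389/1000) x (by norm_num) h1 h2 (by norm_num) (by norm_num) (by norm_num) (by norm_num) (by norm_num)
  have a1 : |x ^ 2 - 3| ≤ x ^ 2 - 3 := abs_le.2 ⟨by linarith, le_rfl⟩
  have e1 := logb (abs_pos.2 n1) E_7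
  have f1 := mul_le_mul_of_nonneg_left a1 (by norm_num : (0 : ℝ) ≤ (416863/1000000))
  have s2 := bern4 2 1 0 0 0 (221/100) (2389/1000) x (by norm_num) h1 h2 (by norm_num) (by norm_num) (by norm_num) (by norm_num) (by norm_num)
  have a2 : |x + 2| ≤ x + 2 := abs_le.2 ⟨by linarith, le_rfl⟩
  have e2 := logb (abs_pos.2 n2) E_12
  have f2 := mul_le_mul_of_nonneg_left a2 (by norm_num : (0 : ℝ) ≤ (223131/1000000))
  have s3 := bern4 (-1) (-2) 1 1 0 (221/100) (2389/1000) x (by norm_num) h1 h2 (by norm_num) (by norm_num) (by norm_num) (by norm_num) (by norm_num)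
  have a3 : |x ^ 3 + x ^ 2 - 2 * x - 1| ≤ x ^ 3 + x ^ 2 - 2 * x - 1 := abs_le.2 ⟨by linarith, le_rfl⟩
  have e3 := logb (abs_pos.2 n3) E_20
  have f3 := mul_le_mul_of_nonneg_left a3 (by norm_num : (0 : ℝ) ≤ (16417/200000))
  have g1 := bern4 (130898269/500000000) (-275759003/1000000000) (17950863/250000000) (173583/20000000) (-199/50000) (221/100) (2389/1000) x (by norm_num) h1 h2 (by norm_num) (by norm_num) (by norm_num) (by norm_num) (by norm_num)
  have g2 := bern4 (94948269/500000000) (-191359003/1000000000) (19775863/250000000) (-264417/20000000) 0 (221/100) (2389/1000) x (by norm_num) h1 h2 (by norm_num) (by norm_num) (by norm_num) (by norm_num) (by norm_num)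
  unfold Lg P1 P2
  constructor <;> linarith

theorem cell23 (x : ℝ) (h1 : (2389/1000) ≤ x) (h2 : x ≤ (321/125)) (n1 : x ^ 2 - 3 ≠ 0) (n2 : x + 2 ≠ 0)
    (n3 : x ^ 3 + x ^ 2 - 2 * x - 1 ≠ 0) : 0 + Lg x ≤ P1 x ∧ 0 + Lg x ≤ P2 x := by
  have s1 := bern4 (-3) 0 1 0 0 (2389/1000) (321/125) x (by norm_num) h1 h2 (by norm_num) (by norm_num) (by norm_num) (by norm_num) (by norm_num)
  have a1 : |x ^ 2 - 3| ≤ x ^ 2 - 3 := abs_le.2 ⟨by linarith, le_rfl⟩
  have e1 := logb (abs_pos.2 n1) E_9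
  have f1 := mul_le_mul_of_nonneg_left a1 (by norm_num : (0 : ℝ) ≤ (324653/1000000))
  have s2 := bern4 2 1 0 0 0 (2389/1000) (321/125) x (by norm_num) h1 h2 (by norm_num) (by norm_num) (by norm_num) (by norm_num) (by norm_num)
  have a2 : |x + 2| ≤ x + 2 := abs_le.2 ⟨by linarith, le_rfl⟩
  have e2 := logb (abs_pos.2 n2) E_12
  have f2 := mul_le_mul_of_nonneg_left a2 (by norm_num : (0 : ℝ) ≤ (223131/1000000))
  have s3 := bern4 (-1) (-2) 1 1 0 (2389/1000) (321/125) x (by norm_num) h1 h2 (by norm_num) (by norm_num) (by norm_num) (by norm_num) (by norm_num)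
  have a3 : |x ^ 3 + x ^ 2 - 2 * x - 1| ≤ x ^ 3 + x ^ 2 - 2 * x - 1 := abs_le.2 ⟨by linarith, le_rfl⟩
  have e3 := logb (abs_pos.2 n3) E_22
  have f3 := mul_le_mul_of_nonneg_left a3 (by norm_num : (0 : ℝ) ≤ (639279/10000000))
  have g1 := bern4 (234889987/1000000000) (-55224429/200000000) (76226683/1000000000) (8860721/1000000000) (-199/50000) (2389/1000) (321/125) x (by norm_num) h1 h2 (by norm_num) (by norm_num) (by norm_num) (by norm_num) (by norm_num)
  have g2 := bern4 (162989987/1000000000) (-38344429/200000000) (83526683/1000000000) (-13039279/1000000000) 0 (2389/1000) (321/125) x (by norm_num) h1 h2 (by norm_num) (by norm_num) (by norm_num) (by norm_num) (by norm_num)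
  unfold Lg P1 P2
  constructor <;> linarith

theorem cell24 (x : ℝ) (h1 : (321/125) ≤ x) (h2 : x ≤ (1463/500)) (n1 : x ^ 2 - 3 ≠ 0) (n2 : x + 2 ≠ 0)
    (n3 : x ^ 3 + x ^ 2 - 2 * x - 1 ≠ 0) : 0 + Lg x ≤ P1 x ∧ 0 + Lg x ≤ P2 x := by
  have s1 := bern4 (-3) 0 1 0 0 (321/125) (1463/500) x (by norm_num) h1 h2 (by norm_num) (by norm_num) (by norm_num) (by norm_num) (by norm_num)
  have a1 : |x ^ 2 - 3| ≤ x ^ 2 - 3 := abs_le.2 ⟨by linarith, le_rfl⟩
  have e1 := logb (abs_pos.2 n1) E_12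
  have f1 := mul_le_mul_of_nonneg_left a1 (by norm_num : (0 : ℝ) ≤ (223131/1000000))
  have s2 := bern4 2 1 0 0 0 (321/125) (1463/500) x (by norm_num) h1 h2 (by norm_num) (by norm_num) (by norm_num) (by norm_num) (by norm_num)
  have a2 : |x + 2| ≤ x + 2 := abs_le.2 ⟨by linarith, le_rfl⟩
  have e2 := logb (abs_pos.2 n2) E_12
  have f2 := mul_le_mul_of_nonneg_left a2 (by norm_num : (0 : ℝ) ≤ (223131/1000000))
  have s3 := bern4 (-1) (-2) 1 1 0 (321/125) (1463/500) x (by norm_num) h1 h2 (by norm_num) (by norm_num) (by norm_num) (by norm_num) (by norm_num)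
  have a3 : |x ^ 3 + x ^ 2 - 2 * x - 1| ≤ x ^ 3 + x ^ 2 - 2 * x - 1 := abs_le.2 ⟨by linarith, le_rfl⟩
  have e3 := logb (abs_pos.2 n3) E_24
  have f3 := mul_le_mul_of_nonneg_left a3 (by norm_num : (0 : ℝ) ≤ (497871/10000000))
  have g1 := bern4 (200988543/1000000000) (-276404961/1000000000) (81038103/1000000000) (9002129/1000000000) (-199/50000) (321/125) (1463/500) x (by norm_num) h1 h2 (by norm_num) (by norm_num) (by norm_num) (by norm_num) (by norm_num)
  have g2 := bern4 (129088543/1000000000) (-192004961/1000000000) (88338103/1000000000) (-12897871/1000000000) 0 (321/125) (1463/500) x (by norm_num) h1 h2 (by norm_num) (by norm_num) (by norm_num) (by norm_num) (by norm_num)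
  unfold Lg P1 P2
  constructor <;> linarith

theorem cell25 (x : ℝ) (h1 : (1463/500) ≤ x) (h2 : x ≤ (821/250)) (n1 : x ^ 2 - 3 ≠ 0) (n2 : x + 2 ≠ 0)
    (n3 : x ^ 3 + x ^ 2 - 2 * x - 1 ≠ 0) : 0 + Lg x ≤ P1 x ∧ 0 + Lg x ≤ P2 x := by
  have s1 := bern4 (-3) 0 1 0 0 (1463/500) (821/250) x (by norm_num) h1 h2 (by norm_num) (by norm_num) (by norm_num) (by norm_num) (by norm_num)
  have a1 : |x ^ 2 - 3| ≤ x ^ 2 - 3 := abs_le.2 ⟨by linarith, le_rfl⟩
  have e1 := logb (abs_pos.2 n1) E_15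
  have f1 := mul_le_mul_of_nonneg_left a1 (by norm_num : (0 : ℝ) ≤ (30671/200000))
  have s2 := bern4 2 1 0 0 0 (1463/500) (821/250) x (by norm_num) h1 h2 (by norm_num) (by norm_num) (by norm_num) (by norm_num) (by norm_num)
  have a2 : |x + 2| ≤ x + 2 := abs_le.2 ⟨by linarith, le_rfl⟩
  have e2 := logb (abs_pos.2 n2) E_13
  have f2 := mul_le_mul_of_nonneg_left a2 (by norm_num : (0 : ℝ) ≤ (12307/62500))
  have s3 := bern4 (-1) (-2) 1 1 0 (1463/500) (821/250) x (by norm_num) h1 h2 (by norm_num) (by norm_num) (by norm_num) (by norm_num) (by norm_num)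
  have a3 : |x ^ 3 + x ^ 2 - 2 * x - 1| ≤ x ^ 3 + x ^ 2 - 2 * x - 1 := abs_le.2 ⟨by linarith, le_rfl⟩
  have e3 := logb (abs_pos.2 n3) E_28
  have f3 := mul_le_mul_of_nonneg_left a3 (by norm_num : (0 : ℝ) ≤ (150987/5000000))
  have g1 := bern4 (41992563/250000000) (-69113977/250000000) (5277731/62500000) (4599013/500000000) (-199/50000) (1463/500) (821/250) x (by norm_num) h1 h2 (by norm_num) (by norm_num) (by norm_num) (by norm_num) (by norm_num)
  have g2 := bern4 (24017563/250000000) (-48013977/250000000) (5733981/62500000) (-6350987/500000000) 0 (1463/500) (821/250) x (by norm_num) h1 h2 (by norm_num) (by norm_num) (by norm_num) (by norm_num) (by norm_num)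
  unfold Lg P1 P2
  constructor <;> linarith

theorem cell26 (x : ℝ) (h1 : (821/250) ≤ x) (h2 : x ≤ 4) (n1 : x ^ 2 - 3 ≠ 0) (n2 : x + 2 ≠ 0)
    (n3 : x ^ 3 + x ^ 2 - 2 * x - 1 ≠ 0) : 0 + Lg x ≤ P1 x ∧ 0 + Lg x ≤ P2 x := by
  have s1 := bern4 (-3) 0 1 0 0 (821/250) 4 x (by norm_num) h1 h2 (by norm_num) (by norm_num) (by norm_num) (by norm_num) (by norm_num)
  have a1 : |x ^ 2 - 3| ≤ x ^ 2 - 3 := abs_le.2 ⟨by linarith, le_rfl⟩
  have e1 := logb (abs_pos.2 n1) E_20
  have f1 := mul_le_mul_of_nonneg_left a1 (by norm_num : (0 : ℝ) ≤ (16417/200000))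
  have s2 := bern4 2 1 0 0 0 (821/250) 4 x (by norm_num) h1 h2 (by norm_num) (by norm_num) (by norm_num) (by norm_num) (by norm_num)
  have a2 : |x + 2| ≤ x + 2 := abs_le.2 ⟨by linarith, le_rfl⟩
  have e2 := logb (abs_pos.2 n2) E_14
  have f2 := mul_le_mul_of_nonneg_left a2 (by norm_num : (0 : ℝ) ≤ (86887/500000))
  have s3 := bern4 (-1) (-2) 1 1 0 (821/250) 4 x (by norm_num) h1 h2 (by norm_num) (by norm_num) (by norm_num) (by norm_num) (by norm_num)
  have a3 : |x ^ 3 + x ^ 2 - 2 * x - 1| ≤ x ^ 3 + x ^ 2 - 2 * x - 1 := abs_le.2 ⟨by linarith, le_rfl⟩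
  have e3 := logb (abs_pos.2 n3) E_32
  have f3 := mul_le_mul_of_nonneg_left a3 (by norm_num : (0 : ℝ) ≤ (183157/10000000))
  have g1 := bern4 (123242763/1000000000) (-69098187/250000000) (87840933/1000000000) (9316843/1000000000) (-199/50000) (821/250) 4 x (by norm_num) h1 h2 (by norm_num) (by norm_num) (by norm_num) (by norm_num) (by norm_num)
  have g2 := bern4 (51342763/1000000000) (-47998187/250000000) (95140933/1000000000) (-12583157/1000000000) 0 (821/250) 4 x (by norm_num) h1 h2 (by norm_num) (by norm_num) (by norm_num) (by norm_num) (by norm_num)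
  unfold Lg P1 P2
  constructor <;> linarith

/-- The inequality on the left part. -/
theorem main_left (x : ℝ) (h1 : -4 ≤ x) (h2 : x ≤ -(173 / 100)) (n1 : x ^ 2 - 3 ≠ 0) (n2 : x + 2 ≠ 0)
    (n3 : x ^ 3 + x ^ 2 - 2 * x - 1 ≠ 0) : 1 + Lg x ≤ P1 x ∧ 1 + Lg x ≤ P2 x := by
  rcases le_total x (-7/2) with h | h0
  · exact cell0 x (by linarith) h n1 n2 n3
  rcases le_total x (-3) with h | h1
  · exact cell1 x (by linarith) h n1 n2 n3
  rcases le_total x (-2) with h | h2
  · exact cell2 x (by linarith) h n1 n2 n3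
  rcases le_total x (-483/250) with h | h3
  · exact cell3 x (by linarith) h n1 n2 n3
  rcases le_total x (-373/200) with h | h4
  · exact cell4 x (by linarith) h n1 n2 n3
  rcases le_total x (-229/125) with h | h5
  · exact cell5 x (by linarith) h n1 n2 n3
  rcases le_total x (-363/200) with h | h6
  · exact cell6 x (by linarith) h n1 n2 n3
  rcases le_total x (-899/500) with h | h7
  · exact cell7 x (by linarith) h n1 n2 n3
  rcases le_total x (-1781/1000) with h | h8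
  · exact cell8 x (by linarith) h n1 n2 n3
  rcases le_total x (-441/250) with h | h9
  · exact cell9 x (by linarith) h n1 n2 n3
  rcases le_total x (-1747/1000) with h | h10
  · exact cell10 x (by linarith) h n1 n2 n3
  exact cell11 x (by linarith) (by linarith) n1 n2 n3

/-- The inequality on the right part. -/
theorem main_right (x : ℝ) (h1 : -(173 / 100) ≤ x) (h2 : x ≤ 4) (n1 : x ^ 2 - 3 ≠ 0) (n2 : x + 2 ≠ 0)
    (n3 : x ^ 3 + x ^ 2 - 2 * x - 1 ≠ 0) : 0 + Lg x ≤ P1 x ∧ 0 + Lg x ≤ P2 x := by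
  rcases le_total x (-149/500) with h | h12
  · exact cell12 x (by linarith) h n1 n2 n3
  rcases le_total x (209/500) with h | h13
  · exact cell13 x (by linarith) h n1 n2 n3
  rcases le_total x (97/125) with h | h14
  · exact cell14 x (by linarith) h n1 n2 n3
  rcases le_total x (239/250) with h | h15
  · exact cell15 x (by linarith) h n1 n2 n3
  rcases le_total x (227/200) with h | h16
  · exact cell16 x (by linarith) h n1 n2 n3
  rcases le_total x (657/500) with h | h17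
  · exact cell17 x (by linarith) h n1 n2 n3
  rcases le_total x (747/500) with h | h18
  · exact cell18 x (by linarith) h n1 n2 n3
  rcases le_total x (463/250) with h | h19
  · exact cell19 x (by linarith) h n1 n2 n3
  rcases le_total x (2031/1000) with h | h20
  · exact cell20 x (by linarith) h n1 n2 n3
  rcases le_total x (221/100) with h | h21
  · exact cell21 x (by linarith) h n1 n2 n3
  rcases le_total x (2389/1000) with h | h22
  · exact cell22 x (by linarith) h n1 n2 n3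
  rcases le_total x (321/125) with h | h23
  · exact cell23 x (by linarith) h n1 n2 n3
  rcases le_total x (1463/500) with h | h24
  · exact cell24 x (by linarith) h n1 n2 n3
  rcases le_total x (821/250) with h | h25
  · exact cell25 x (by linarith) h n1 n2 n3
  exact cell26 x (by linarith) (by linarith) n1 n2 n3

end Pool.Agent.X256.Med
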