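import Pool.Agent.X256.Med.Spec

/-!
# Fewer than half of the eigenvalues of a graph of maximum degree 4 are below `-√3`
-/

set_option autoImplicit false

namespace Pool.Agent.X256.Med

open Matrix Finset Polynomial

variable {V : Type*} [Fintype V] [DecidableEq V] (G : SimpleGraph V) [DecidableRel G.Adj]

theorem adj_herm : (G.adjMatrix ℝ).IsHermitian := by
  rw [Matrix.IsHermitian, Matrix.conjTranspose_eq_transpose_of_trivial,
    SimpleGraph.transpose_adjMatrix]

theorem eig_bound (hΔ : ∀ v, G.degree v ≤ 4) (i : V) :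
    |(adj_herm G).eigenvalues i| ≤ 4 := by
  set hA := adj_herm G
  have h1 : (G.adjMatrix ℝ) * UU hA = UU hA * diagonal hA.eigenvalues := by
    have e := A_eq hA
    calc (G.adjMatrix ℝ) * UU hA
        = (UU hA * diagonal hA.eigenvalues * star (UU hA)) * UU hA := by rw [← e]
      _ = UU hA * diagonal hA.eigenvalues := by rw [Matrix.mul_assoc, star_mul_UU, Matrix.mul_one]
  have h2 : ∀ v, ∑ u ∈ G.neighborFinset v, UU hA u i = UU hA v i * hA.eigenvalues i := by
    intro v
    have := congrFun (congrFun h1 v) i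
    rwa [SimpleGraph.adjMatrix_mul_apply, Matrix.mul_diagonal] at this
  obtain ⟨v, -, hv⟩ := Finset.exists_max_image univ (fun v => |UU hA v i|) ⟨i, mem_univ i⟩
  have hpos : 0 < |UU hA v i| := by
    by_contra hcon
    push Not at hcon
    have h3 : ∀ u, UU hA u i = 0 := by
      intro u
      have := hv u (mem_univ u)
      exact abs_eq_zero.1 (le_antisymm (this.trans hcon) (abs_nonneg _))
    have h4 := col_sum hA i
    simp [h3] at h4
  have h5 : |UU hA v i * hA.eigenvalues i| ≤ 4 * |UU hA v i| := by
    rw [← h2 v]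
    refine (Finset.abs_sum_le_sum_abs _ _).trans ?_
    refine (Finset.sum_le_sum fun u _ => hv u (mem_univ u)).trans ?_
    rw [Finset.sum_const, nsmul_eq_mul, SimpleGraph.card_neighborFinset_eq_degree]
    have : (G.degree v : ℝ) ≤ 4 := by exact_mod_cast hΔ v
    exact mul_le_mul_of_nonneg_right this (abs_nonneg _)
  rw [abs_mul, mul_comm] at h5
  exact le_of_mul_le_mul_right h5 hpos

theorem charpoly_eq_map : ((G.adjMatrix ℤ).charpoly.map toR) = (G.adjMatrix ℝ).charpoly := by
  rw [← Matrix.charpoly_map]
  congr 1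
  ext v w
  simp [SimpleGraph.adjMatrix_apply, Matrix.map_apply]

open Classical in
/-- The number of roots of the characteristic polynomial below `-√3` is at most `0.4999 n`. -/
theorem count_roots (hΔ : ∀ v, G.degree v ≤ 4) :
    (((G.adjMatrix ℝ).charpoly.roots.filter (fun x => x < -√3)).card : ℝ) ≤
      4999 / 10000 * Fintype.card V := by
  set hA := adj_herm G
  have hroots : (G.adjMatrix ℝ).charpoly.roots = Multiset.map hA.eigenvalues univ.val := by
    have := hA.roots_charpoly_eq_eigenvalues
    simpa using this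
  have h1 : 0 ≤ Phi ((G.adjMatrix ℤ).charpoly.map toR) := by
    refine Phi_nonneg _ _ (Matrix.charpoly_monic _) rfl ?_ ?_
    · rw [charpoly_eq_map]; exact hA.splits_charpoly
    · rw [charpoly_eq_map, hroots]
      intro x hx
      obtain ⟨i, -, rfl⟩ := Multiset.mem_map.1 hx
      exact abs_le.1 (eig_bound G hΔ i)
  rw [charpoly_eq_map] at h1
  unfold Phi at h1
  rw [Multiset.sum_map_sub, sub_nonneg] at h1
  have h2 : ((G.adjMatrix ℝ).charpoly.roots.map ind).sum =
      (((G.adjMatrix ℝ).charpoly.roots.filter (fun x => x < -√3)).card : ℝ) := by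
    have : ∀ s : Multiset ℝ, (s.map ind).sum = ((s.filter (fun x => x < -√3)).card : ℝ) := by
      intro s
      induction s using Multiset.induction_on with
      | empty => simp
      | cons a s ih =>
        rw [Multiset.map_cons, Multiset.sum_cons, ih, Multiset.filter_cons]
        unfold ind
        split_ifs with h
        · rw [Multiset.card_add]; simp
        · simp
    exact this _
  rw [← h2]
  refine h1.trans ?_
  rw [hroots, Multiset.map_map]
  have h3 : (Multiset.map (phi ∘ hA.eigenvalues) univ.val).sum = ∑ i, phi (hA.eigenvalues i) := rfl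
  rw [h3]
  refine (sum_le_sum_vertices hA phi (fun v x => if small G v then P1 x else P2 x) ?_).trans ?_
  · intro v x
    split_ifs
    · exact min_le_left _ _
    · exact min_le_right _ _
  · refine le_trans (le_of_eq ?_) (sum_val_le G hΔ)
    refine Finset.sum_congr rfl fun v _ => ?_
    unfold val
    split_ifs with h
    · rw [← P1_apply hA]
    · rw [← P2_apply hA]

/-- The lower median eigenvalue is at least `-√3`. -/
theorem median_ge (hΔ : ∀ v, G.degree v ≤ 4) (μ : Fin (Fintype.card V) → ℝ) (hμ : Antitone μ)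
    (hc : (G.adjMatrix ℝ).charpoly = ∏ k, (X - C (μ k))) :
    ((univ.filter fun k => μ k < -√3).card : ℝ) ≤ 4999 / 10000 * Fintype.card V ∧
    ∀ k : Fin (Fintype.card V), (k : ℕ) + 1 ≤ (Fintype.card V + 2) / 2 → -√3 ≤ μ k := by
  classical
  have h1 := count_roots G hΔ
  have h2 : (G.adjMatrix ℝ).charpoly.roots = Multiset.map μ univ.val := by
    rw [hc, Polynomial.roots_prod _ _ (Finset.prod_ne_zero_iff.2 fun k _ => X_sub_C_ne_zero _)]
    simp [Multiset.bind_singleton]
  have h3 : ((G.adjMatrix ℝ).charpoly.roots.filter (fun x => x < -√3)).card =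
      (univ.filter fun k => μ k < -√3).card := by
    rw [h2, Multiset.filter_map, Multiset.card_map]
    rfl
  rw [h3] at h1
  refine ⟨h1, fun k hk => ?_⟩
  by_contra hcon
  push Not at hcon
  have h4 : Finset.Ici k ⊆ univ.filter fun k => μ k < -√3 := by
    intro j hj
    rw [Finset.mem_filter]
    exact ⟨mem_univ _, lt_of_le_of_lt (hμ (Finset.mem_Ici.1 hj)) hcon⟩
  have h5 := Finset.card_le_card h4
  rw [Fin.card_Ici] at h5
  have h6 : ((Fintype.card V - k : ℕ) : ℝ) ≤ 4999 / 10000 * Fintype.card V :=
    le_trans (by exact_mod_cast h5) h1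
  have h7 : (Fintype.card V : ℕ) ≤ 2 * (Fintype.card V - k) := by
    have := k.isLt
    omega
  have h8 : (Fintype.card V : ℝ) ≤ 2 * ((Fintype.card V - k : ℕ) : ℝ) := by exact_mod_cast h7
  have h9 : 0 < Fintype.card V := lt_of_le_of_lt (Nat.zero_le _) k.isLt
  have h10 : (0 : ℝ) < Fintype.card V := by exact_mod_cast h9
  linarith

end Pool.Agent.X256.Med
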