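import Pool.Agent.X256.Med.Ineq

/-!
# Integrality: the test function on the roots of a monic integer polynomial
-/

set_option autoImplicit false

namespace Pool.Agent.X256.Med

open Polynomial

/-- the smaller of the two test polynomials -/
noncomputable def phi (x : ℝ) : ℝ := min (P1 x) (P2 x)

open Classical in
/-- the indicator of `x < -√3` -/
noncomputable def ind (x : ℝ) : ℝ := if x < -√3 then 1 else 0

/-- the embedding of the integers in the reals -/
abbrev toR : ℤ →+* ℝ := Int.castRingHom ℝ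

noncomputable def q1 : ℤ[X] := X ^ 2 - C 3
noncomputable def q2 : ℤ[X] := X + C 2
noncomputable def q3 : ℤ[X] := X ^ 3 + X ^ 2 - C 2 * X - C 1

theorem q1_monic : q1.Monic := by unfold q1; monicity!
theorem q2_monic : q2.Monic := by unfold q2; monicity!
theorem q3_monic : q3.Monic := by unfold q3; monicity!
theorem q1_deg : q1.natDegree = 2 := by unfold q1; compute_degree!
theorem q2_deg : q2.natDegree = 1 := by unfold q2; compute_degree!
theorem q3_deg : q3.natDegree = 3 := by unfold q3; compute_degree!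

theorem q1_eval (x : ℝ) : (q1.map toR).eval x = x ^ 2 - 3 := by simp [q1]
theorem q2_eval (x : ℝ) : (q2.map toR).eval x = x + 2 := by simp [q2]
theorem q3_eval (x : ℝ) : (q3.map toR).eval x = x ^ 3 + x ^ 2 - 2 * x - 1 := by simp [q3]

theorem sqrt3_lt : √3 < 17321 / 10000 := by
  rw [Real.sqrt_lt' (by norm_num)]; norm_num
theorem lt_sqrt3 : 173 / 100 < √3 := by
  rw [Real.lt_sqrt (by norm_num)]; norm_num

theorem key (x : ℝ) (h1 : -4 ≤ x) (h2 : x ≤ 4) (n1 : x ^ 2 - 3 ≠ 0) (n2 : x + 2 ≠ 0)
    (n3 : x ^ 3 + x ^ 2 - 2 * x - 1 ≠ 0) : ind x + Lg x ≤ phi x := by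
  unfold phi ind
  rcases le_total x (-(173 / 100)) with h | h
  · obtain ⟨a, b⟩ := main_left x h1 h n1 n2 n3
    rw [le_min_iff]
    split_ifs <;> constructor <;> linarith
  · obtain ⟨a, b⟩ := main_right x h h2 n1 n2 n3
    have : ¬ x < -√3 := by have := lt_sqrt3; push Not; linarith
    rw [le_min_iff, if_neg this]
    exact ⟨a, b⟩

theorem phi_neg_two : ind (-2) ≤ phi (-2) := by
  unfold phi ind P1 P2
  rw [le_min_iff]
  split_ifs <;> constructor <;> norm_num

theorem phi_sqrt : ind (√3) + ind (-√3) ≤ phi (√3) + phi (-√3) := by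
  have h1 : ind (√3) = 0 := by
    unfold ind; rw [if_neg]; push Not; have := Real.sqrt_nonneg 3; linarith
  have h2 : ind (-√3) = 0 := by unfold ind; rw [if_neg (lt_irrefl _)]
  rw [h1, h2]
  have s2 : √3 ^ 2 = 3 := Real.sq_sqrt (by norm_num)
  have a := sqrt3_lt
  have b := lt_sqrt3
  have s3 : √3 ^ 3 = 3 * √3 := by rw [pow_succ, s2]
  have s4 : √3 ^ 4 = 9 := by rw [show (4 : ℕ) = 2 * 2 by rfl, pow_mul, s2]; norm_num
  have n2 : (-√3) ^ 2 = 3 := by rw [neg_sq, s2]
  have n3 : (-√3) ^ 3 = -(3 * √3) := by rw [← s3]; ring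
  have n4 : (-√3) ^ 4 = 9 := by rw [← s4]; ring
  have e1 : 0 ≤ phi (√3) := by
    unfold phi P1 P2; rw [le_min_iff, s2, s3, s4]; constructor <;> linarith
  have e2 : 0 ≤ phi (-√3) := by
    unfold phi P1 P2; rw [le_min_iff, n2, n3, n4]; constructor <;> linarith
  linarith

theorem sum_log (f : ℝ → ℝ) (s : Multiset ℝ) (h : ∀ x ∈ s, f x ≠ 0) :
    (s.map fun x => Real.log |f x|).sum = Real.log |(s.map f).prod| := by
  induction s using Multiset.induction_on with
  | empty => simp
  | cons a s ih =>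
    rw [Multiset.map_cons, Multiset.sum_cons, Multiset.map_cons, Multiset.prod_cons, abs_mul,
      Real.log_mul, ih]
    · intro x hx; exact h x (Multiset.mem_cons_of_mem hx)
    · simpa using h a (Multiset.mem_cons_self a s)
    · rw [abs_ne_zero]
      apply Multiset.prod_ne_zero
      intro h0
      obtain ⟨x, hx, hx'⟩ := Multiset.mem_map.1 h0
      exact h x (Multiset.mem_cons_of_mem hx) hx'

/-- The product of the values of an integer polynomial at the roots of a monic integer polynomial
is a nonzero integer. -/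
theorem one_le_prod (χ q : ℤ[X]) (hm : χ.Monic) (hs : (χ.map toR).Splits)
    (h : ∀ x ∈ (χ.map toR).roots, (q.map toR).eval x ≠ 0) :
    0 ≤ ((χ.map toR).roots.map fun x => Real.log |(q.map toR).eval x|).sum := by
  rw [sum_log _ _ h]
  have h1 := resultant_eq_prod_eval (χ.map toR) (q.map toR) q.natDegree natDegree_map_le hs
  rw [resultant_map_map, (hm.map toR).leadingCoeff, one_pow, one_mul] at h1
  have h2 : ((χ.map toR).roots.map (q.map toR).eval).prod ≠ 0 := by
    apply Multiset.prod_ne_zero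
    intro h0
    obtain ⟨x, hx, hx'⟩ := Multiset.mem_map.1 h0
    exact h x hx hx'
  rw [← h1] at h2 ⊢
  set N := resultant χ q (χ.map toR).natDegree q.natDegree
  have h3 : N ≠ 0 := by
    intro h0; apply h2; rw [h0]; simp
  apply Real.log_nonneg
  have h4 : (1 : ℤ) ≤ |N| := Int.one_le_abs h3
  have h5 : ((1 : ℤ) : ℝ) ≤ ((|N| : ℤ) : ℝ) := by exact_mod_cast h4
  simpa using h5

end Pool.Agent.X256.Med
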