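import Pool.Agent.X256.Med.Div

/-!
# Spectral weights at the vertices
-/

set_option autoImplicit false

namespace Pool.Agent.X256.Med

open Matrix Finset

section Spec

variable {V : Type*} [Fintype V] [DecidableEq V] {A : Matrix V V ℝ} (hA : A.IsHermitian)

/-- the matrix of eigenvectors -/
noncomputable def UU : Matrix V V ℝ := (hA.eigenvectorUnitary : Matrix V V ℝ)

theorem star_mul_UU : star (UU hA) * UU hA = 1 := Unitary.coe_star_mul_self hA.eigenvectorUnitary
theorem UU_mul_star : UU hA * star (UU hA) = 1 := Unitary.coe_mul_star_self hA.eigenvectorUnitary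

theorem A_eq : A = UU hA * diagonal hA.eigenvalues * star (UU hA) := by
  have h := hA.spectral_theorem
  rw [Unitary.conjStarAlgAut_apply] at h
  exact h

theorem pow_eq (k : ℕ) : A ^ k = UU hA * diagonal (fun i => hA.eigenvalues i ^ k) * star (UU hA) := by
  induction k with
  | zero => simp [UU_mul_star]
  | succ k ih =>
    have e1 : A ^ (k + 1) = UU hA * diagonal (fun i => hA.eigenvalues i ^ k) * star (UU hA) *
        (UU hA * diagonal hA.eigenvalues * star (UU hA)) := by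
      rw [pow_succ, ih, ← A_eq hA]
    rw [e1]
    have : UU hA * diagonal (fun i => hA.eigenvalues i ^ k) * star (UU hA) *
        (UU hA * diagonal hA.eigenvalues * star (UU hA)) =
        UU hA * (diagonal (fun i => hA.eigenvalues i ^ k) * (star (UU hA) * UU hA) *
          diagonal hA.eigenvalues) * star (UU hA) := by
      simp only [Matrix.mul_assoc]
    rw [this, star_mul_UU, Matrix.mul_one, diagonal_mul_diagonal]
    simp only [pow_succ]

theorem pow_apply (k : ℕ) (v : V) :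
    (A ^ k) v v = ∑ i, hA.eigenvalues i ^ k * (UU hA v i) ^ 2 := by
  rw [pow_eq hA k, Matrix.mul_apply]
  refine Finset.sum_congr rfl fun i _ => ?_
  rw [Matrix.mul_diagonal, star_apply, star_trivial]
  ring

theorem col_sum (i : V) : ∑ v, (UU hA v i) ^ 2 = 1 := by
  have h := congrFun (congrFun (star_mul_UU hA) i) i
  rw [Matrix.mul_apply, Matrix.one_apply_eq] at h
  rw [← h]
  refine Finset.sum_congr rfl fun v _ => ?_
  rw [star_apply, star_trivial, sq]

/-- Summing functions at most as large as functions chosen at the vertices. -/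
theorem sum_le_sum_vertices (f : ℝ → ℝ) (g : V → ℝ → ℝ) (h : ∀ v x, f x ≤ g v x) :
    ∑ i, f (hA.eigenvalues i) ≤ ∑ v, ∑ i, g v (hA.eigenvalues i) * (UU hA v i) ^ 2 := by
  have h1 : ∑ i, f (hA.eigenvalues i) = ∑ i, ∑ v, f (hA.eigenvalues i) * (UU hA v i) ^ 2 := by
    refine Finset.sum_congr rfl fun i _ => ?_
    rw [← Finset.mul_sum, col_sum, mul_one]
  rw [h1, Finset.sum_comm]
  refine Finset.sum_le_sum fun v _ => Finset.sum_le_sum fun i _ => ?_
  exact mul_le_mul_of_nonneg_right (h v _) (sq_nonneg _)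

theorem P1_apply (v : V) : ∑ i, P1 (hA.eigenvalues i) * (UU hA v i) ^ 2 =
    225 / 1000 * (A ^ 0) v v - 2745 / 10000 * (A ^ 1) v v + 918 / 10000 * (A ^ 2) v v
      + 95 / 10000 * (A ^ 3) v v - 398 / 100000 * (A ^ 4) v v := by
  rw [pow_apply hA, pow_apply hA, pow_apply hA, pow_apply hA, pow_apply hA]
  simp only [Finset.mul_sum, ← Finset.sum_add_distrib, ← Finset.sum_sub_distrib]
  refine Finset.sum_congr rfl fun i _ => ?_
  unfold P1
  ring

theorem P2_apply (v : V) : ∑ i, P2 (hA.eigenvalues i) * (UU hA v i) ^ 2 =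
    1531 / 10000 * (A ^ 0) v v - 1901 / 10000 * (A ^ 1) v v + 991 / 10000 * (A ^ 2) v v
      - 124 / 10000 * (A ^ 3) v v := by
  rw [pow_apply hA, pow_apply hA, pow_apply hA, pow_apply hA]
  simp only [Finset.mul_sum, ← Finset.sum_add_distrib, ← Finset.sum_sub_distrib]
  refine Finset.sum_congr rfl fun i _ => ?_
  unfold P2
  ring

end Spec

section Graph

variable {V : Type*} [Fintype V] [DecidableEq V] (G : SimpleGraph V) [DecidableRel G.Adj]

theorem adj_map : G.adjMatrix ℝ = (Nat.castRingHom ℝ).mapMatrix (G.adjMatrix ℕ) := by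
  ext v w
  simp [SimpleGraph.adjMatrix_apply, RingHom.mapMatrix_apply, Matrix.map_apply]

theorem adj_pow (k : ℕ) (v w : V) : ((G.adjMatrix ℝ) ^ k) v w = (((G.adjMatrix ℕ) ^ k) v w : ℝ) := by
  rw [adj_map, ← map_pow, RingHom.mapMatrix_apply, Matrix.map_apply]
  rfl

theorem pow_two_diag (v : V) : ((G.adjMatrix ℝ) ^ 2) v v = G.degree v := by
  rw [sq, SimpleGraph.adjMatrix_mul_self_apply_self]

theorem pow_one_diag (v : V) : ((G.adjMatrix ℝ) ^ 1) v v = 0 := by
  rw [pow_one, SimpleGraph.adjMatrix_apply]; simp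

theorem pow_three_even (v : V) : 2 ∣ ((G.adjMatrix ℕ) ^ 3) v v := by
  rw [← ZMod.natCast_eq_zero_iff]
  have h1 : ((((G.adjMatrix ℕ) ^ 3) v v : ℕ) : ZMod 2) =
      ∑ p ∈ (univ : Finset (V × V)), ((G.adjMatrix ℕ v p.1 * G.adjMatrix ℕ p.1 p.2 *
        G.adjMatrix ℕ p.2 v : ℕ) : ZMod 2) := by
    rw [← Nat.cast_sum]
    congr 1
    rw [pow_succ, sq, Matrix.mul_apply, Fintype.sum_prod_type, Finset.sum_comm]
    refine Finset.sum_congr rfl fun b _ => ?_
    rw [Matrix.mul_apply, Finset.sum_mul]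
  rw [h1]
  refine Finset.sum_involution (fun p _ => (p.2, p.1)) ?_ ?_ ?_ ?_
  · intro p _
    have : G.adjMatrix ℕ v p.2 * G.adjMatrix ℕ p.2 p.1 * G.adjMatrix ℕ p.1 v =
        G.adjMatrix ℕ v p.1 * G.adjMatrix ℕ p.1 p.2 * G.adjMatrix ℕ p.2 v := by
      simp only [SimpleGraph.adjMatrix_apply, G.adj_comm v p.2, G.adj_comm p.2 p.1, G.adj_comm p.1 v]
      ring
    rw [this]
    exact CharTwo.add_self_eq_zero _
  · intro p _ hp heq
    apply hp
    have : p.1 = p.2 := (congrArg Prod.fst heq).symm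
    rw [this]
    simp [SimpleGraph.adjMatrix_apply]
  · intro p _; exact Finset.mem_univ _
  · intro p _; rfl

theorem sum_pow_two (v : V) : ∑ w, ((G.adjMatrix ℝ) ^ 2) v w = ∑ u ∈ G.neighborFinset v, (G.degree u : ℝ) := by
  rw [sq]
  simp only [SimpleGraph.adjMatrix_mul_apply]
  rw [Finset.sum_comm]
  refine Finset.sum_congr rfl fun u _ => ?_
  simp only [SimpleGraph.adjMatrix_apply, Finset.sum_boole, Nat.cast_inj]
  rw [← SimpleGraph.card_neighborFinset_eq_degree, SimpleGraph.neighborFinset_eq_filter]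

theorem pow_four_ge (v : V) : (G.degree v : ℝ) ^ 2 - G.degree v + ∑ u ∈ G.neighborFinset v, (G.degree u : ℝ)
    ≤ ((G.adjMatrix ℝ) ^ 4) v v := by
  have hsym : ∀ a b, ((G.adjMatrix ℝ) ^ 2) a b = ((G.adjMatrix ℝ) ^ 2) b a := by
    intro a b
    have : (((G.adjMatrix ℝ) ^ 2)ᵀ) = (G.adjMatrix ℝ) ^ 2 := by
      rw [Matrix.transpose_pow, SimpleGraph.transpose_adjMatrix]
    conv_lhs => rw [← this]
    rfl
  have h4 : ((G.adjMatrix ℝ) ^ 4) v v = ∑ w, (((G.adjMatrix ℝ) ^ 2) v w) ^ 2 := by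
    rw [show (4 : ℕ) = 2 + 2 by rfl, pow_add, Matrix.mul_apply]
    refine Finset.sum_congr rfl fun w _ => ?_
    rw [hsym w v, ← sq]
  rw [h4, ← sum_pow_two, ← Finset.add_sum_erase _ _ (Finset.mem_univ v),
    ← Finset.add_sum_erase _ (fun w => (((G.adjMatrix ℝ) ^ 2) v w) ^ 2) (Finset.mem_univ v)]
  have h5 : ∑ w ∈ univ.erase v, ((G.adjMatrix ℝ) ^ 2) v w ≤
      ∑ w ∈ univ.erase v, (((G.adjMatrix ℝ) ^ 2) v w) ^ 2 := by
    refine Finset.sum_le_sum fun w _ => ?_
    rw [adj_pow]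
    have : ((G.adjMatrix ℕ) ^ 2) v w ≤ (((G.adjMatrix ℕ) ^ 2) v w) ^ 2 := Nat.le_self_pow (by norm_num) _
    exact_mod_cast this
  have h6 := pow_two_diag G v
  simp only [h6]
  linarith

/-- number of triangles at most one, in terms of closed walks -/
def small (v : V) : Prop := ((G.adjMatrix ℕ) ^ 3) v v ≤ 2

instance : DecidablePred (small G) := fun v => inferInstanceAs (Decidable (_ ≤ _))

/-- the value of the polynomial chosen at `v` -/
noncomputable def val (v : V) : ℝ :=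
  if small G v then
    225 / 1000 * ((G.adjMatrix ℝ) ^ 0) v v - 2745 / 10000 * ((G.adjMatrix ℝ) ^ 1) v v
      + 918 / 10000 * ((G.adjMatrix ℝ) ^ 2) v v
      + 95 / 10000 * ((G.adjMatrix ℝ) ^ 3) v v - 398 / 100000 * ((G.adjMatrix ℝ) ^ 4) v v
  else 1531 / 10000 * ((G.adjMatrix ℝ) ^ 0) v v - 1901 / 10000 * ((G.adjMatrix ℝ) ^ 1) v v
      + 991 / 10000 * ((G.adjMatrix ℝ) ^ 2) v v - 124 / 10000 * ((G.adjMatrix ℝ) ^ 3) v v

theorem val_le (hΔ : ∀ v, G.degree v ≤ 4) (v : V) :
    val G v ≤ 4999 / 10000 - 398 / 100000 * (G.degree v * (4 - G.degree v))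
      + 398 / 100000 * ∑ u ∈ G.neighborFinset v, (4 - (G.degree u : ℝ)) := by
  have h4 := pow_four_ge G v
  have hs : ∑ u ∈ G.neighborFinset v, (4 - (G.degree u : ℝ)) =
      4 * G.degree v - ∑ u ∈ G.neighborFinset v, (G.degree u : ℝ) := by
    rw [Finset.sum_sub_distrib, Finset.sum_const, SimpleGraph.card_neighborFinset_eq_degree]
    ring
  have hnn : 0 ≤ ∑ u ∈ G.neighborFinset v, (4 - (G.degree u : ℝ)) := by
    refine Finset.sum_nonneg fun u _ => ?_
    have : (G.degree u : ℝ) ≤ 4 := by exact_mod_cast hΔ u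
    linarith
  have hd := hΔ v
  unfold val
  have h0 : ((G.adjMatrix ℝ) ^ 0) v v = 1 := by simp
  rw [h0, pow_one_diag, pow_two_diag]
  split_ifs with hsm
  · have h3 : ((G.adjMatrix ℝ) ^ 3) v v ≤ 2 := by
      rw [adj_pow]; exact_mod_cast hsm
    rw [hs]
    set S := ∑ u ∈ G.neighborFinset v, (G.degree u : ℝ)
    set T := ((G.adjMatrix ℝ) ^ 3) v v
    set F := ((G.adjMatrix ℝ) ^ 4) v v
    generalize G.degree v = d at *
    interval_cases d <;> norm_num at * <;> linarith
  · have h3 : 4 ≤ ((G.adjMatrix ℝ) ^ 3) v v := by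
      rw [adj_pow]
      have h1 : ¬ ((G.adjMatrix ℕ) ^ 3) v v ≤ 2 := hsm
      have h2 := pow_three_even G v
      have : 4 ≤ ((G.adjMatrix ℕ) ^ 3) v v := by omega
      exact_mod_cast this
    set S := ∑ u ∈ G.neighborFinset v, (4 - (G.degree u : ℝ))
    set T := ((G.adjMatrix ℝ) ^ 3) v v
    generalize G.degree v = d at *
    interval_cases d <;> norm_num at * <;> linarith

theorem sum_val_le (hΔ : ∀ v, G.degree v ≤ 4) :
    ∑ v, val G v ≤ 4999 / 10000 * Fintype.card V := by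
  have h1 : ∑ v, val G v ≤ ∑ v, (4999 / 10000 - 398 / 100000 * (G.degree v * (4 - G.degree v) : ℝ)
      + 398 / 100000 * ∑ u ∈ G.neighborFinset v, (4 - (G.degree u : ℝ))) :=
    Finset.sum_le_sum fun v _ => val_le G hΔ v
  refine h1.trans (le_of_eq ?_)
  rw [Finset.sum_add_distrib, Finset.sum_sub_distrib, ← Finset.mul_sum, ← Finset.mul_sum]
  have h2 : ∑ v, ∑ u ∈ G.neighborFinset v, (4 - (G.degree u : ℝ)) =
      ∑ v, (G.degree v : ℝ) * (4 - G.degree v) := by
    have e : ∀ v, ∑ u ∈ G.neighborFinset v, (4 - (G.degree u : ℝ)) =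
        ∑ u, (if G.Adj v u then (4 - (G.degree u : ℝ)) else 0) := by
      intro v
      rw [← Finset.sum_filter, SimpleGraph.neighborFinset_eq_filter]
    simp only [e]
    rw [Finset.sum_comm]
    refine Finset.sum_congr rfl fun u _ => ?_
    rw [← Finset.sum_filter]
    rw [Finset.sum_const, nsmul_eq_mul]
    congr 2
    rw [← SimpleGraph.card_neighborFinset_eq_degree, SimpleGraph.neighborFinset_eq_filter]
    congr 1
    ext v
    simp [G.adj_comm]
  rw [h2]
  simp
  ring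

end Graph

end Pool.Agent.X256.Med
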